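import Pool.Agent.Helper75.Reducts.Gen
import Pool.Agent.Helper70.Reducts.DCC
import Pool.Agent.Helper93.Reducts.Orbits

/-!
# The context of a closed subgroup of `Perm B`
-/

namespace Reducts

open Equiv MulAction
open scoped Pointwise

variable {B : Type*} [MulAction (Perm ℕ) B]

/-- the permutation of `B` induced by `g`. -/
abbrev ph (B : Type*) [MulAction (Perm ℕ) B] (g : Perm ℕ) : Perm B :=
  MulAction.toPermHom (Perm ℕ) B g

theorem ph_apply (g : Perm ℕ) (b : B) : ph B g b = g • b := rfl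

/-- open subgroups of `K`. -/
def OpnIn (K : Subgroup (Perm B)) (U : Subgroup K) : Prop :=
  ∃ F : Finset B, ∀ k : K, (∀ b ∈ F, (k : Perm B) b = b) → k ∈ U

/-- the homomorphism into `K`. -/
def phK (K : Subgroup (Perm B)) (hG : ContainsFx ∅ K) : Perm ℕ →* K :=
  (MulAction.toPermHom (Perm ℕ) B).codRestrict K
    (fun g => hG g (fun _ hi => absurd hi (Finset.notMem_empty _)))

theorem phK_coe (K : Subgroup (Perm B)) (hG : ContainsFx ∅ K) (g : Perm ℕ) :
    ((phK K hG g : K) : Perm B) = ph B g := rfl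

omit [MulAction (Perm ℕ) B] in
theorem isClosed_of_open {K : Subgroup (Perm B)} (hK : IsClosedSub K) {U : Subgroup K}
    (hU : OpnIn K U) : IsClosedSub (U.map K.subtype) := by
  classical
  obtain ⟨F, hF⟩ := hU
  intro g hg
  have hgK : g ∈ K := by
    apply hK
    intro F'
    obtain ⟨k, hk, hk2⟩ := hg F'
    obtain ⟨k', _, rfl⟩ := Subgroup.mem_map.1 hk
    exact ⟨_, k'.2, hk2⟩
  obtain ⟨u, hu, hu2⟩ := hg F
  obtain ⟨u', hu', rfl⟩ := Subgroup.mem_map.1 hu
  refine Subgroup.mem_map.2 ⟨⟨g, hgK⟩, ?_, rfl⟩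
  have h1 : u'⁻¹ * ⟨g, hgK⟩ ∈ U := by
    apply hF
    intro b hb
    have := hu2 b hb
    simp only [Subgroup.coe_mul, Subgroup.coe_inv, Perm.mul_apply]
    rw [Perm.inv_eq_iff_eq]
    exact this.symm
  have := U.mul_mem hu' h1
  simpa using this

/-- the context of a closed subgroup. -/
def closedCtx (hfs : FinSupp B) (hof : OrbFin B) (K : Subgroup (Perm B)) (hK : IsClosedSub K)
    (hG : ContainsFx ∅ K) : Ctx K where
  φ := phK K hG
  opn := OpnIn K
  opn_top := ⟨∅, fun _ _ => Subgroup.mem_top _⟩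
  opn_inf := by
    classical
    rintro U V ⟨F, hF⟩ ⟨F', hF'⟩
    exact ⟨F ∪ F', fun k hk => Subgroup.mem_inf.2
      ⟨hF k (fun b hb => hk b (Finset.mem_union_left _ hb)),
        hF' k (fun b hb => hk b (Finset.mem_union_right _ hb))⟩⟩
  opn_mono := by
    rintro U V ⟨F, hF⟩ hUV
    exact ⟨F, fun k hk => hUV (hF k hk)⟩
  opn_conj := by
    classical
    rintro U m ⟨F, hF⟩
    refine ⟨F.image (m : Perm B), fun k hk => ?_⟩
    rw [mem_cj]
    apply hF
    intro b hb
    have := hk _ (Finset.mem_image_of_mem _ hb)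
    simp only [Subgroup.coe_mul, Subgroup.coe_inv, Perm.mul_apply]
    rw [this]
    simp
  sup := by
    classical
    rintro U ⟨F, hF⟩
    choose s hs using hfs
    refine ⟨F.biUnion s, fun g hg => hF _ (fun b hb => ?_)⟩
    exact hs b g (hg.mono (Finset.subset_biUnion_of_mem s hb))
  fin := by
    classical
    rintro U S ⟨F, hF⟩
    obtain ⟨R, hR, hRrep⟩ := finite_orbits hfs hof S (ι := F)
    let ch : (F → B) → K := fun f =>
      if h : ∃ k : K, ∀ b : F, (k : Perm B) b = f b then h.choose else 1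
    refine ⟨ch '' R, hR.image _, fun m => ?_⟩
    obtain ⟨g, hg, f, hf, hmf⟩ := hRrep (fun b : F => (m : Perm B) b)
    have hex : ∃ k : K, ∀ b : F, (k : Perm B) b = f b := by
      refine ⟨(phK K hG g)⁻¹ * m, fun b => ?_⟩
      have h1 := congrFun hmf b
      simp only [Subgroup.coe_mul, Subgroup.coe_inv, Perm.mul_apply]
      rw [Perm.inv_eq_iff_eq, phK_coe, ph_apply]
      exact h1
    have hch : ∀ b : F, (ch f : Perm B) b = f b := by
      simp only [ch, dif_pos hex]
      exact hex.choose_spec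
    refine ⟨g, hg, ch f, Set.mem_image_of_mem _ hf, (phK K hG g * ch f)⁻¹ * m, ?_,
      (mul_inv_cancel_left _ _).symm⟩
    apply hF
    intro b hb
    simp only [Subgroup.coe_mul, Subgroup.coe_inv, Perm.mul_apply]
    rw [Perm.inv_eq_iff_eq, Perm.mul_apply, hch ⟨b, hb⟩, phK_coe, ph_apply]
    exact congrFun hmf ⟨b, hb⟩
  dcc := by
    intro S U hU hS hanti
    obtain ⟨n, hn⟩ := dcc_closed hfs hof S (fun i => (U i).map K.subtype)
      (fun i => isClosed_of_open hK (hU i))
      (fun i g hg => Subgroup.mem_map.2 ⟨phK K hG g, hS i g hg, rfl⟩)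
      (fun i j hij => Subgroup.map_mono (hanti hij))
    refine ⟨n, fun m hm => ?_⟩
    exact Subgroup.map_injective K.subtype_injective (hn m hm)

end Reducts
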