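import Pool.Agent.Helper75.Reducts.PermN

/-!
# Contexts: a group with a homomorphism from `Perm ℕ` and a family of open subgroups
-/

namespace Reducts

open Equiv MulAction
open scoped Pointwise

section cj
variable {M : Type*} [Group M]

/-- the conjugate subgroup `m U m⁻¹`. -/
def cj (m : M) (U : Subgroup M) : Subgroup M := U.map (MulAut.conj m).toMonoidHom

theorem mem_cj {m x : M} {U : Subgroup M} : x ∈ cj m U ↔ m⁻¹ * x * m ∈ U := by
  unfold cj
  rw [Subgroup.mem_map]
  constructor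
  · rintro ⟨u, hu, rfl⟩
    have : m⁻¹ * ((MulAut.conj m).toMonoidHom u) * m = u := by simp [mul_assoc]
    rwa [this]
  · intro h
    exact ⟨_, h, by simp [mul_assoc]⟩

theorem cj_mono {m : M} {U V : Subgroup M} (h : U ≤ V) : cj m U ≤ cj m V :=
  fun _ hx => mem_cj.2 (h (mem_cj.1 hx))

theorem cj_one (U : Subgroup M) : cj 1 U = U := by
  ext x; simp [mem_cj]

theorem cj_mul (m n : M) (U : Subgroup M) : cj (m * n) U = cj m (cj n U) := by
  ext x; simp [mem_cj, mul_assoc]

theorem cj_inf (m : M) (U V : Subgroup M) : cj m (U ⊓ V) = cj m U ⊓ cj m V := by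
  ext x; simp [mem_cj, Subgroup.mem_inf]

theorem cj_of_mem {m : M} {U : Subgroup M} (h : m ∈ U) : cj m U = U := by
  ext x
  rw [mem_cj]
  constructor
  · intro hx
    have := U.mul_mem (U.mul_mem h hx) (U.inv_mem h)
    simpa [mul_assoc] using this
  · intro hx
    exact U.mul_mem (U.mul_mem (U.inv_mem h) hx) h

theorem le_cj_iff {m : M} {U V : Subgroup M} : cj m U ≤ V ↔ U ≤ cj m⁻¹ V := by
  constructor
  · intro h u hu
    rw [mem_cj]
    apply h
    rw [mem_cj]
    simpa [mul_assoc] using hu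
  · intro h x hx
    have := h (mem_cj.1 hx)
    rw [mem_cj] at this
    simpa [mul_assoc] using this

theorem stab_smul {Ω : Type*} [MulAction M Ω] (m : M) (x : Ω) :
    stabilizer M (m • x) = cj m (stabilizer M x) :=
  MulAction.stabilizer_smul_eq_stabilizer_map_conj m x

theorem stab_prod {Ω Ω' : Type*} [MulAction M Ω] [MulAction M Ω'] (x : Ω) (y : Ω') :
    stabilizer M (x, y) = stabilizer M x ⊓ stabilizer M y := by
  ext m
  simp [mem_stabilizer_iff, Subgroup.mem_inf, Prod.ext_iff]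

/-- `D` has finite index in `C` (no inclusion required). -/
def FI (D C : Subgroup M) : Prop := ∃ F : Set M, F.Finite ∧ ∀ c ∈ C, ∃ f ∈ F, f⁻¹ * c ∈ D

theorem FI.refl (C : Subgroup M) : FI C C :=
  ⟨{1}, Set.finite_singleton _, fun c hc => ⟨1, rfl, by simpa using hc⟩⟩

theorem FI.of_le {D C : Subgroup M} (h : C ≤ D) : FI D C :=
  ⟨{1}, Set.finite_singleton _, fun c hc => ⟨1, rfl, by simpa using h hc⟩⟩

theorem FI.mono {D D' C C' : Subgroup M} (h : FI D C) (hD : D ≤ D') (hC : C' ≤ C) : FI D' C' := by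
  obtain ⟨F, hF, h⟩ := h
  refine ⟨F, hF, fun c hc => ?_⟩
  obtain ⟨f, hf, h'⟩ := h c (hC hc)
  exact ⟨f, hf, hD h'⟩

theorem FI.trans {D C' C : Subgroup M} (h : FI D C') (h' : FI C' C) : FI D C := by
  obtain ⟨F, hF, h⟩ := h
  obtain ⟨F', hF', h'⟩ := h'
  refine ⟨F' * F, hF'.mul hF, fun c hc => ?_⟩
  obtain ⟨f', hf', h1⟩ := h' c hc
  obtain ⟨f, hf, h2⟩ := h _ h1
  exact ⟨f' * f, Set.mul_mem_mul hf' hf, by simpa [mul_assoc] using h2⟩

theorem FI.inf {D D' C : Subgroup M} (h : FI D C) (h' : FI D' C) : FI (D ⊓ D') C := by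
  classical
  obtain ⟨F, hF, h⟩ := h
  obtain ⟨F', hF', h'⟩ := h'
  let P : M × M → M → Prop := fun p c => c ∈ C ∧ p.1⁻¹ * c ∈ D ∧ p.2⁻¹ * c ∈ D'
  let ch : M × M → M := fun p => if hp : ∃ c, P p c then hp.choose else 1
  refine ⟨ch '' (F ×ˢ F'), (hF.prod hF').image ch, fun c hc => ?_⟩
  obtain ⟨f, hf, h1⟩ := h c hc
  obtain ⟨f', hf', h2⟩ := h' c hc
  have hp : ∃ c, P (f, f') c := ⟨c, hc, h1, h2⟩
  refine ⟨ch (f, f'), Set.mem_image_of_mem _ (Set.mk_mem_prod hf hf'), ?_⟩
  have e : ch (f, f') = hp.choose := by simp only [ch, dif_pos hp]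
  have hs := hp.choose_spec
  rw [← e] at hs
  obtain ⟨_, h3, h4⟩ := hs
  refine Subgroup.mem_inf.2 ⟨?_, ?_⟩
  · have := D.mul_mem (D.inv_mem h3) h1
    simpa [mul_assoc] using this
  · have := D'.mul_mem (D'.inv_mem h4) h2
    simpa [mul_assoc] using this

theorem FI.cj {D C : Subgroup M} (m : M) (h : FI D C) : FI (Reducts.cj m D) (Reducts.cj m C) := by
  obtain ⟨F, hF, h⟩ := h
  refine ⟨(fun f => m * f * m⁻¹) '' F, hF.image _, fun c hc => ?_⟩
  obtain ⟨f, hf, h'⟩ := h _ (mem_cj.1 hc)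
  refine ⟨_, Set.mem_image_of_mem _ hf, ?_⟩
  rw [mem_cj]
  simpa [mul_assoc] using h'

theorem FI.inf_right {D C : Subgroup M} (h : FI D C) : FI (D ⊓ C) C := h.inf (FI.refl C)

/-- finite orbits give stabilisers of finite index. -/
theorem FI.of_finite_orbit {Ω : Type*} [MulAction M Ω] {x : Ω} {C : Subgroup M}
    (h : {y | ∃ c ∈ C, c • x = y}.Finite) : FI (stabilizer M x) C := by
  classical
  let ch : Ω → M := fun y => if hy : ∃ c ∈ C, c • x = y then hy.choose else 1
  refine ⟨ch '' {y | ∃ c ∈ C, c • x = y}, h.image _, fun c hc => ?_⟩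
  have hy : ∃ c' ∈ C, c' • x = c • x := ⟨c, hc, rfl⟩
  refine ⟨ch (c • x), Set.mem_image_of_mem _ hy, ?_⟩
  have e : ch (c • x) = hy.choose := by simp only [ch, dif_pos hy]
  rw [mem_stabilizer_iff, mul_smul, inv_smul_eq_iff, e]
  exact hy.choose_spec.2.symm

end cj

/-- A context: a group `M` with a homomorphism from `Perm ℕ` and a family of open subgroups. -/
structure Ctx (M : Type*) [Group M] where
  φ : Perm ℕ →* M
  opn : Subgroup M → Prop
  opn_top : opn ⊤
  opn_inf : ∀ {U V : Subgroup M}, opn U → opn V → opn (U ⊓ V)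
  opn_mono : ∀ {U V : Subgroup M}, opn U → U ≤ V → opn V
  opn_conj : ∀ {U : Subgroup M} (m : M), opn U → opn (cj m U)
  sup : ∀ {U : Subgroup M}, opn U → ∃ S : Finset ℕ, ∀ g, Fx S g → φ g ∈ U
  fin : ∀ {U : Subgroup M} (S : Finset ℕ), opn U → ∃ F : Set M, F.Finite ∧
    ∀ m, ∃ g, Fx S g ∧ ∃ f ∈ F, ∃ u ∈ U, m = φ g * f * u
  dcc : ∀ (S : Finset ℕ) (U : ℕ → Subgroup M), (∀ i, opn (U i)) →
    (∀ i g, Fx S g → φ g ∈ U i) → Antitone U → ∃ n, ∀ m ≥ n, U m = U n

namespace Ctx

variable {M : Type*} [Group M] (X : Ctx M)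

/-- `U` contains the image of the pointwise stabiliser of `S`. -/
def Has (S : Finset ℕ) (U : Subgroup M) : Prop := ∀ g, Fx S g → X.φ g ∈ U

variable {X}

theorem Has.mono {S T : Finset ℕ} {U V : Subgroup M} (h : X.Has S U) (hST : S ⊆ T) (hUV : U ≤ V) :
    X.Has T V := fun g hg => hUV (h g (hg.mono hST))

theorem Has.inf {S : Finset ℕ} {U V : Subgroup M} (h : X.Has S U) (h' : X.Has S V) :
    X.Has S (U ⊓ V) := fun g hg => Subgroup.mem_inf.2 ⟨h g hg, h' g hg⟩

theorem Has.inter {S T : Finset ℕ} {U : Subgroup M} (hS : X.Has S U) (hT : X.Has T U) :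
    X.Has (S ∩ T) U :=
  fx_inter_le (U.comap X.φ) S T (fun g hg => hS g hg) (fun g hg => hT g hg)

theorem Has.cj {S : Finset ℕ} {U : Subgroup M} (h : X.Has S U) (g : Perm ℕ) :
    X.Has (S.image g) (Reducts.cj (X.φ g) U) := by
  intro k hk
  rw [mem_cj]
  have := h _ (hk.conj g)
  simpa using this

variable (X)

/-- the least support of a subgroup. -/
noncomputable def supp (U : Subgroup M) : Finset ℕ := by
  classical
  exact if h : ∃ S, X.Has S U ∧ ∀ T, X.Has T U → S ⊆ T then h.choose else ∅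

theorem exists_supp {U : Subgroup M} (hU : X.opn U) :
    ∃ S, X.Has S U ∧ ∀ T, X.Has T U → S ⊆ T := by
  classical
  have hex : ∃ n, ∃ S : Finset ℕ, X.Has S U ∧ S.card = n := by
    obtain ⟨S, hS⟩ := X.sup hU
    exact ⟨_, S, hS, rfl⟩
  obtain ⟨S, hS, hcard⟩ := Nat.find_spec hex
  refine ⟨S, hS, fun T hT => ?_⟩
  have h1 := Nat.find_min' hex ⟨S ∩ T, hS.inter hT, rfl⟩
  rw [← hcard] at h1
  have h2 : S ∩ T = S := Finset.eq_of_subset_of_card_le Finset.inter_subset_left h1
  rw [← h2]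
  exact Finset.inter_subset_right

variable {X}

theorem has_supp {U : Subgroup M} (hU : X.opn U) : X.Has (X.supp U) U := by
  classical
  have h := X.exists_supp hU
  unfold supp
  rw [dif_pos h]
  exact h.choose_spec.1

theorem supp_subset {U : Subgroup M} (hU : X.opn U) {T : Finset ℕ} (hT : X.Has T U) :
    X.supp U ⊆ T := by
  classical
  have h := X.exists_supp hU
  unfold supp
  rw [dif_pos h]
  exact h.choose_spec.2 T hT

theorem supp_anti {U V : Subgroup M} (hU : X.opn U) (h : U ≤ V) : X.supp V ⊆ X.supp U :=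
  supp_subset (X.opn_mono hU h) ((has_supp hU).mono subset_rfl h)

theorem supp_inf_subset {U V : Subgroup M} (hU : X.opn U) (hV : X.opn V) :
    X.supp (U ⊓ V) ⊆ X.supp U ∪ X.supp V :=
  supp_subset (X.opn_inf hU hV)
    (((has_supp hU).mono Finset.subset_union_left le_rfl).inf
      ((has_supp hV).mono Finset.subset_union_right le_rfl))

theorem supp_cj_subset {U : Subgroup M} (hU : X.opn U) (g : Perm ℕ) :
    X.supp (Reducts.cj (X.φ g) U) ⊆ (X.supp U).image g :=
  supp_subset (X.opn_conj _ hU) ((has_supp hU).cj g)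

theorem supp_cj {U : Subgroup M} (hU : X.opn U) (g : Perm ℕ) :
    X.supp (Reducts.cj (X.φ g) U) = (X.supp U).image g := by
  classical
  apply Finset.Subset.antisymm (supp_cj_subset hU g)
  have h := supp_cj_subset (X.opn_conj (X.φ g) hU) g⁻¹
  rw [← cj_mul, ← map_mul, inv_mul_cancel, map_one, cj_one] at h
  intro i hi
  obtain ⟨j, hj, rfl⟩ := Finset.mem_image.1 hi
  obtain ⟨k, hk, hk2⟩ := Finset.mem_image.1 (h hj)
  have : g j = k := by rw [← hk2, ap_inv]
  rw [this]
  exact hk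

/-- An open subgroup of finite index in `C` contains `φ(G_S)` as soon as `C` does. -/
theorem has_of_FI {D C : Subgroup M} {S : Finset ℕ} (hD : X.opn D) (hC : X.Has S C)
    (h : FI D C) : X.Has S D := by
  classical
  obtain ⟨F, hF, h⟩ := h
  have key : X.supp D ⊆ S := by
    by_contra hcon
    obtain ⟨t, ht, htS⟩ := Finset.not_subset.1 hcon
    have hfin : (⋃ f ∈ F, (X.supp (Reducts.cj f D) : Set ℕ)).Finite :=
      hF.biUnion (fun f _ => Finset.finite_toSet _)
    obtain ⟨g, hg⟩ := exists_fresh S {t} hfin.toFinset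
    have h1 := hg.2 t (Finset.mem_singleton_self t) htS
    apply h1
    rw [Set.Finite.mem_toFinset]
    obtain ⟨f, hf, hfD⟩ := h _ (hC g hg.1)
    rw [Set.mem_iUnion₂]
    refine ⟨f, hf, ?_⟩
    have e : Reducts.cj (X.φ g) D = Reducts.cj f D := by
      have : X.φ g = f * (f⁻¹ * X.φ g) := by simp
      rw [this, cj_mul, cj_of_mem hfD]
    rw [← e, supp_cj hD]
    exact Finset.mem_coe.2 (Finset.mem_image_of_mem _ ht)
  exact (has_supp hD).mono key le_rfl

theorem exists_min (S : Finset ℕ) (P : Subgroup M → Prop) (hP : ∀ U, P U → X.opn U ∧ X.Has S U)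
    (hne : ∃ U, P U) : ∃ U, P U ∧ ∀ V, P V → V ≤ U → V = U := by
  classical
  by_contra hcon
  push Not at hcon
  obtain ⟨U0, hU0⟩ := hne
  have step : ∀ U : {U // P U}, ∃ V : {U // P U}, V.1 ≤ U.1 ∧ V.1 ≠ U.1 := by
    intro U
    obtain ⟨V, hV, hle, hne⟩ := hcon U.1 U.2
    exact ⟨⟨V, hV⟩, hle, hne⟩
  choose nx hnx using step
  let U : ℕ → {U // P U} := fun n => Nat.rec ⟨U0, hU0⟩ (fun _ V => nx V) n
  have hU : ∀ n, U (n + 1) = nx (U n) := fun n => rfl
  have hanti : Antitone (fun n => (U n).1) := by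
    apply antitone_nat_of_succ_le
    intro n
    rw [hU]
    exact (hnx (U n)).1
  obtain ⟨n, hn⟩ := X.dcc S (fun n => (U n).1) (fun i => (hP _ (U i).2).1)
    (fun i => (hP _ (U i).2).2) hanti
  have := hn (n + 1) (Nat.le_succ n)
  rw [hU] at this
  exact (hnx (U n)).2 this

variable (X)

/-- the least open subgroup of finite index of `C`. -/
def conn (C : Subgroup M) : Subgroup M := sInf {D | X.opn D ∧ FI D C ∧ D ≤ C}

variable {X}

theorem exists_conn {C : Subgroup M} (hC : X.opn C) :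
    X.opn (X.conn C) ∧ FI (X.conn C) C ∧ X.conn C ≤ C := by
  obtain ⟨U, hU, hmin⟩ := exists_min (X := X) (X.supp C) (fun D => X.opn D ∧ FI D C ∧ D ≤ C)
    (fun D hD => ⟨hD.1, has_of_FI hD.1 (has_supp hC) hD.2.1⟩) ⟨C, hC, FI.refl C, le_rfl⟩
  have : X.conn C = U := by
    apply le_antisymm
    · exact sInf_le hU
    · apply le_sInf
      intro D hD
      have := hmin (U ⊓ D) ⟨X.opn_inf hU.1 hD.1, hU.2.1.inf hD.2.1, inf_le_left.trans hU.2.2⟩
        inf_le_left
      rw [← this]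
      exact inf_le_right
  rw [this]
  exact hU

theorem opn_conn {C : Subgroup M} (hC : X.opn C) : X.opn (X.conn C) := (exists_conn hC).1

theorem FI_conn {C : Subgroup M} (hC : X.opn C) : FI (X.conn C) C := (exists_conn hC).2.1

theorem conn_le {C : Subgroup M} (hC : X.opn C) : X.conn C ≤ C := (exists_conn hC).2.2

theorem conn_min {C D : Subgroup M} (hC : X.opn C) (hD : X.opn D) (h : FI D C) : X.conn C ≤ D := by
  have : X.conn C ≤ D ⊓ C := sInf_le ⟨X.opn_inf hD hC, h.inf_right, inf_le_right⟩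
  exact this.trans inf_le_left

theorem has_conn {C : Subgroup M} {S : Finset ℕ} (hC : X.opn C) (h : X.Has S C) :
    X.Has S (X.conn C) := has_of_FI (opn_conn hC) h (FI_conn hC)

variable (X)

/-- connected open subgroups. -/
def Cn (N : Subgroup M) : Prop := X.opn N ∧ X.conn N = N

variable {X}

theorem Cn.opn {N : Subgroup M} (h : X.Cn N) : X.opn N := h.1

theorem Cn.le {N D : Subgroup M} (h : X.Cn N) (hD : X.opn D) (hFI : FI D N) : N ≤ D := by
  have := conn_min h.1 hD hFI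
  rwa [h.2] at this

theorem cn_conn {C : Subgroup M} (hC : X.opn C) : X.Cn (X.conn C) := by
  refine ⟨opn_conn hC, le_antisymm (conn_le (opn_conn hC)) ?_⟩
  exact conn_min hC (opn_conn (opn_conn hC)) ((FI_conn (opn_conn hC)).trans (FI_conn hC))

theorem Cn.le_conn {N C : Subgroup M} (h : X.Cn N) (hC : X.opn C) (hle : N ≤ C) : N ≤ X.conn C :=
  h.le (opn_conn hC) ((FI_conn hC).mono le_rfl hle)

theorem conn_mono {C D : Subgroup M} (hD : X.opn D) (h : D ≤ C) : X.conn D ≤ X.conn C :=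
  (cn_conn hD).le_conn (X.opn_mono hD h) ((conn_le hD).trans h)

theorem conn_eq_of_FI {C D : Subgroup M} (hD : X.opn D) (h : D ≤ C) (hFI : FI D C) :
    X.conn D = X.conn C := by
  have hC := X.opn_mono hD h
  exact le_antisymm (conn_mono hD h) (conn_min hC (opn_conn hD) ((FI_conn hD).trans hFI))

theorem conn_cj {C : Subgroup M} (hC : X.opn C) (m : M) : X.conn (cj m C) = cj m (X.conn C) := by
  apply le_antisymm
  · exact conn_min (X.opn_conj m hC) (X.opn_conj m (opn_conn hC)) ((FI_conn hC).cj m)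
  · rw [le_cj_iff]
    apply conn_min hC (X.opn_conj _ (opn_conn (X.opn_conj m hC)))
    have := (FI_conn (X.opn_conj m hC)).cj m⁻¹
    rwa [← cj_mul, inv_mul_cancel, cj_one] at this

theorem conn_normal {C : Subgroup M} (hC : X.opn C) {m : M} (hm : m ∈ C) :
    cj m (X.conn C) = X.conn C := by
  rw [← conn_cj hC, cj_of_mem hm]

theorem Cn.cj {N : Subgroup M} (h : X.Cn N) (m : M) : X.Cn (Reducts.cj m N) :=
  ⟨X.opn_conj m h.1, by rw [conn_cj h.1, h.2]⟩

end Ctx

end Reducts
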