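import Mathlib

/-!
# Basic definitions for MP_a81937_lc
`Fx S g` : the permutation `g` of the natural numbers fixes the finite set `S` pointwise.
-/

namespace Reducts

/-- `g` fixes every element of the finite set `S`. -/
def Fx (S : Finset ℕ) (g : Equiv.Perm ℕ) : Prop := ∀ i ∈ S, g i = i

/-- Every element of `B` has a finite support. -/
def FinSupp (B : Type*) [MulAction (Equiv.Perm ℕ) B] : Prop :=
  ∀ b : B, ∃ S : Finset ℕ, ∀ g : Equiv.Perm ℕ, Fx S g → g • b = b

/-- `B` is a union of finitely many orbits. -/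
def OrbFin (B : Type*) [MulAction (Equiv.Perm ℕ) B] : Prop :=
  ∃ F : Finset B, ∀ b : B, ∃ g : Equiv.Perm ℕ, ∃ f ∈ F, b = g • f

/-- `K` is closed in `Perm B` for the topology of pointwise convergence. -/
def IsClosedSub {B : Type*} (K : Subgroup (Equiv.Perm B)) : Prop :=
  ∀ g : Equiv.Perm B, (∀ F : Finset B, ∃ k ∈ K, ∀ b ∈ F, k b = g b) → g ∈ K

/-- `K` contains the image of the pointwise stabiliser of `S` in `Perm ℕ`. -/
def ContainsFx {B : Type*} [MulAction (Equiv.Perm ℕ) B] (S : Finset ℕ)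
    (K : Subgroup (Equiv.Perm B)) : Prop :=
  ∀ g : Equiv.Perm ℕ, Fx S g → MulAction.toPermHom (Equiv.Perm ℕ) B g ∈ K

end Reducts
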