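import Pool.Agent.Helper75.Reducts.Ctx

/-!
# Elements of `M`-sets: continuity, supports, orbits
-/

namespace Reducts

open Equiv MulAction
open scoped Pointwise

section orb
variable {M : Type*} [Group M] {Ω : Type*} [MulAction M Ω]

/-- the orbit of `a` under the subgroup `N`. -/
def orb (N : Subgroup M) (a : Ω) : Set Ω := {y | ∃ n ∈ N, n • a = y}

theorem mem_orb_self (N : Subgroup M) (a : Ω) : a ∈ orb N a := ⟨1, N.one_mem, one_smul _ _⟩

theorem smul_mem_orb {N : Subgroup M} {n : M} (hn : n ∈ N) (a : Ω) : n • a ∈ orb N a :=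
  ⟨n, hn, rfl⟩

theorem orb_symm {N : Subgroup M} {a b : Ω} (h : b ∈ orb N a) : a ∈ orb N b := by
  obtain ⟨n, hn, rfl⟩ := h
  exact ⟨n⁻¹, N.inv_mem hn, inv_smul_smul _ _⟩

theorem orb_trans {N : Subgroup M} {a b c : Ω} (h : b ∈ orb N a) (h' : c ∈ orb N b) :
    c ∈ orb N a := by
  obtain ⟨n, hn, rfl⟩ := h
  obtain ⟨m, hm, rfl⟩ := h'
  exact ⟨m * n, N.mul_mem hm hn, mul_smul _ _ _⟩

theorem orb_eq {N : Subgroup M} {a b : Ω} (h : b ∈ orb N a) : orb N b = orb N a := by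
  ext c
  exact ⟨fun hc => orb_trans h hc, fun hc => orb_trans (orb_symm h) hc⟩

theorem orb_mono {N N' : Subgroup M} (h : N ≤ N') (a : Ω) : orb N a ⊆ orb N' a := by
  rintro _ ⟨n, hn, rfl⟩
  exact ⟨n, h hn, rfl⟩

theorem orb_eq_of_inter {N : Subgroup M} {a b : Ω} (h : (orb N a ∩ orb N b).Nonempty) :
    orb N a = orb N b := by
  obtain ⟨c, h1, h2⟩ := h
  rw [← orb_eq h1, orb_eq h2]

theorem smul_orb (m : M) (N : Subgroup M) (a : Ω) : m • orb N a = orb (cj m N) (m • a) := by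
  ext y
  rw [Set.mem_smul_set]
  constructor
  · rintro ⟨_, ⟨n, hn, rfl⟩, rfl⟩
    refine ⟨m * n * m⁻¹, ?_, ?_⟩
    · rw [mem_cj]; simpa [mul_assoc] using hn
    · simp [mul_smul]
  · rintro ⟨x, hx, rfl⟩
    refine ⟨(m⁻¹ * x * m) • a, ⟨_, mem_cj.1 hx, rfl⟩, ?_⟩
    simp [smul_smul, mul_assoc]

theorem smul_orb_of_mem {m : M} {N : Subgroup M} (h : m ∈ N) (a : Ω) : m • orb N a = orb N a := by
  rw [smul_orb, cj_of_mem h]
  exact orb_eq (smul_mem_orb h a)

theorem le_stab_orb (N : Subgroup M) (a : Ω) : N ≤ stabilizer M (orb N a) :=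
  fun _ hm => smul_orb_of_mem hm a

theorem orb_of_le_stab {N : Subgroup M} {a : Ω} (h : N ≤ stabilizer M a) : orb N a = {a} := by
  ext y
  constructor
  · rintro ⟨n, hn, rfl⟩
    exact h hn
  · rintro rfl
    exact mem_orb_self N _

theorem FI_iff_orb_finite {a : Ω} {C : Subgroup M} : FI (stabilizer M a) C ↔ (orb C a).Finite := by
  constructor
  · rintro ⟨F, hF, h⟩
    apply (hF.image (fun f => f • a)).subset
    rintro _ ⟨c, hc, rfl⟩
    obtain ⟨f, hf, h'⟩ := h c hc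
    refine ⟨f, hf, ?_⟩
    rw [mem_stabilizer_iff, mul_smul, inv_smul_eq_iff] at h'
    exact h'.symm
  · intro h
    exact FI.of_finite_orbit h

/-- equivariant maps. -/
def Eqv {Ω' : Type*} [MulAction M Ω'] (f : Ω → Ω') : Prop := ∀ (m : M) (x : Ω), f (m • x) = m • f x

end orb

theorem sdiff_image_fix {S T : Finset ℕ} {g : Perm ℕ} (h : Fx S g) {i : ℕ} :
    i ∈ T.image g ∧ i ∉ S ↔ ∃ j ∈ T, j ∉ S ∧ g j = i := by
  constructor
  · rintro ⟨h1, h2⟩
    obtain ⟨j, hj, rfl⟩ := Finset.mem_image.1 h1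
    refine ⟨j, hj, fun hjS => h2 ?_, rfl⟩
    rw [h j hjS]
    exact hjS
  · rintro ⟨j, hj, hjS, rfl⟩
    refine ⟨Finset.mem_image_of_mem _ hj, fun h2 => hjS ?_⟩
    have := h _ h2
    rw [← g.injective this]
    exact h2

namespace Ctx

variable {M : Type*} [Group M] (X : Ctx M) {Ω : Type*} [MulAction M Ω] {Ω' : Type*}
  [MulAction M Ω']

/-- `x` is continuous: its stabiliser is open. -/
def Cont (x : Ω) : Prop := X.opn (stabilizer M x)

/-- the least support of `x`. -/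
noncomputable def sp (x : Ω) : Finset ℕ := X.supp (stabilizer M x)

/-- `S` supports `x`. -/
def Sup (S : Finset ℕ) (x : Ω) : Prop := X.Has S (stabilizer M x)

variable {X}

theorem Sup.smul_eq {S : Finset ℕ} {x : Ω} (h : X.Sup S x) {g : Perm ℕ} (hg : Fx S g) :
    X.φ g • x = x := h g hg

theorem Cont.smul {x : Ω} (h : X.Cont x) (m : M) : X.Cont (m • x) := by
  unfold Cont
  rw [stab_smul]
  exact X.opn_conj m h

theorem cont_smul_iff {x : Ω} {m : M} : X.Cont (m • x) ↔ X.Cont x := by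
  constructor
  · intro h
    have := h.smul m⁻¹
    rwa [inv_smul_smul] at this
  · intro h; exact h.smul m

theorem sup_sp {x : Ω} (h : X.Cont x) : X.Sup (X.sp x) x := has_supp h

theorem sp_subset {x : Ω} (h : X.Cont x) {S : Finset ℕ} (hS : X.Sup S x) : X.sp x ⊆ S :=
  supp_subset h hS

theorem Sup.mono {S T : Finset ℕ} {x : Ω} (h : X.Sup S x) (hST : S ⊆ T) : X.Sup T x :=
  Has.mono h hST le_rfl

theorem sp_smul {x : Ω} (h : X.Cont x) (g : Perm ℕ) : X.sp (X.φ g • x) = (X.sp x).image g := by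
  unfold sp
  rw [stab_smul, supp_cj h]

theorem smul_eq_of_agree {x : Ω} (h : X.Cont x) {g g' : Perm ℕ} (hg : ∀ i ∈ X.sp x, g i = g' i) :
    X.φ g • x = X.φ g' • x := by
  rw [← inv_smul_eq_iff, smul_smul, ← map_inv, ← map_mul]
  apply (sup_sp h).smul_eq
  intro i hi
  rw [Perm.mul_apply, hg i hi, inv_ap]

theorem Cont.prod {x : Ω} {y : Ω'} (h : X.Cont x) (h' : X.Cont y) : X.Cont (x, y) := by
  unfold Cont
  rw [stab_prod]
  exact X.opn_inf h h'

theorem cont_orb {N : Subgroup M} (hN : X.opn N) (a : Ω) : X.Cont (orb N a) :=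
  X.opn_mono hN (le_stab_orb N a)

theorem sup_orb {N : Subgroup M} {S : Finset ℕ} (hN : X.Has S N) (a : Ω) : X.Sup S (orb N a) :=
  hN.mono subset_rfl (le_stab_orb N a)

theorem stab_inter_le (P Q : Set Ω) :
    stabilizer M P ⊓ stabilizer M Q ≤ stabilizer M (P ∩ Q) := by
  intro m hm
  rw [Subgroup.mem_inf, mem_stabilizer_iff, mem_stabilizer_iff] at hm
  rw [mem_stabilizer_iff, Set.smul_set_inter, hm.1, hm.2]

theorem stab_union_le (P Q : Set Ω) :
    stabilizer M P ⊓ stabilizer M Q ≤ stabilizer M (P ∪ Q) := by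
  intro m hm
  rw [Subgroup.mem_inf, mem_stabilizer_iff, mem_stabilizer_iff] at hm
  rw [mem_stabilizer_iff, Set.smul_set_union, hm.1, hm.2]

theorem stab_compl (P : Set Ω) : stabilizer M Pᶜ = stabilizer M P := by
  ext m
  rw [mem_stabilizer_iff, mem_stabilizer_iff, Set.smul_set_compl, compl_inj_iff]

theorem stab_diff_le (P Q : Set Ω) :
    stabilizer M P ⊓ stabilizer M Q ≤ stabilizer M (P \ Q) := by
  intro m hm
  rw [Subgroup.mem_inf, mem_stabilizer_iff, mem_stabilizer_iff] at hm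
  rw [mem_stabilizer_iff, Set.smul_set_sdiff, hm.1, hm.2]

theorem Cont.inter {P Q : Set Ω} (h : X.Cont P) (h' : X.Cont Q) : X.Cont (P ∩ Q) :=
  X.opn_mono (X.opn_inf h h') (stab_inter_le P Q)

theorem Cont.union {P Q : Set Ω} (h : X.Cont P) (h' : X.Cont Q) : X.Cont (P ∪ Q) :=
  X.opn_mono (X.opn_inf h h') (stab_union_le P Q)

theorem Cont.diff {P Q : Set Ω} (h : X.Cont P) (h' : X.Cont Q) : X.Cont (P \ Q) :=
  X.opn_mono (X.opn_inf h h') (stab_diff_le P Q)

theorem Cont.compl {P : Set Ω} (h : X.Cont P) : X.Cont Pᶜ := by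
  unfold Cont
  rw [stab_compl]
  exact h

theorem cont_univ : X.Cont (Set.univ : Set Ω) := by
  apply X.opn_mono X.opn_top
  intro m _
  rw [mem_stabilizer_iff, Set.smul_set_univ]

theorem cont_empty : X.Cont (∅ : Set Ω) := by
  apply X.opn_mono X.opn_top
  intro m _
  rw [mem_stabilizer_iff, Set.smul_set_empty]

theorem sp_compl (P : Set Ω) : X.sp Pᶜ = X.sp P := by
  unfold sp
  rw [stab_compl]

theorem sp_inter_subset {P Q : Set Ω} (h : X.Cont P) (h' : X.Cont Q) :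
    X.sp (P ∩ Q) ⊆ X.sp P ∪ X.sp Q :=
  (supp_anti (X.opn_inf h h') (stab_inter_le P Q)).trans (supp_inf_subset h h')

theorem stab_le_preimage {f : Ω → Ω'} (hf : Eqv (M := M) f) (P : Set Ω') :
    stabilizer M P ≤ stabilizer M (f ⁻¹' P) := by
  intro m hm
  rw [mem_stabilizer_iff] at hm ⊢
  ext x
  rw [Set.mem_smul_set_iff_inv_smul_mem, Set.mem_preimage, Set.mem_preimage, hf,
    ← Set.mem_smul_set_iff_inv_smul_mem, hm]

theorem Cont.preimage {f : Ω → Ω'} (hf : Eqv (M := M) f) {P : Set Ω'} (h : X.Cont P) :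
    X.Cont (f ⁻¹' P) := X.opn_mono h (stab_le_preimage hf P)

theorem smul_preimage {f : Ω → Ω'} (hf : Eqv (M := M) f) (m : M) (P : Set Ω') :
    m • (f ⁻¹' P) = f ⁻¹' (m • P) := by
  ext x
  rw [Set.mem_smul_set_iff_inv_smul_mem, Set.mem_preimage, Set.mem_preimage, hf,
    ← Set.mem_smul_set_iff_inv_smul_mem]

/-- supports are bounded on orbits. -/
theorem exists_bound {x : Ω} (h : X.Cont x) : ∃ K : ℕ, ∀ m : M, (X.sp (m • x)).card ≤ K := by
  classical
  obtain ⟨F, hF, h1⟩ := X.fin ∅ h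
  refine ⟨hF.toFinset.sup (fun f => (X.sp (f • x)).card), fun m => ?_⟩
  obtain ⟨g, _, f, hf, u, hu, rfl⟩ := h1 m
  rw [mul_smul, mul_smul, mem_stabilizer_iff.1 hu, sp_smul (h.smul f),
    Finset.card_image_of_injective _ g.injective]
  exact Finset.le_sup (f := fun f => (X.sp (f • x)).card) (hF.mem_toFinset.2 hf)

/-- an orbit `N a` is a finite union of orbits of `φ(G_S)`. -/
theorem exists_reps {N : Subgroup M} {S : Finset ℕ} (hN : X.Has S N) {a : Ω} (ha : X.Cont a) :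
    ∃ F : Set Ω, F.Finite ∧ F ⊆ orb N a ∧ ∀ b ∈ orb N a, ∃ f ∈ F, ∃ g, Fx S g ∧ b = X.φ g • f := by
  classical
  obtain ⟨F, hF, h1⟩ := X.fin S ha
  refine ⟨((fun f => f • a) '' F) ∩ orb N a, (hF.image _).inter_of_left _,
    Set.inter_subset_right, ?_⟩
  rintro b ⟨n, hn, rfl⟩
  obtain ⟨g, hg, f, hf, u, hu, rfl⟩ := h1 n
  have e : (X.φ g * f * u) • a = X.φ g • (f • a) := by
    rw [mul_smul, mul_smul, mem_stabilizer_iff.1 hu]
  refine ⟨f • a, ⟨Set.mem_image_of_mem _ hf, ?_⟩, g, hg, e⟩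
  refine ⟨(X.φ g)⁻¹ * (X.φ g * f * u), N.mul_mem (N.inv_mem (hN g hg)) hn, ?_⟩
  rw [mul_smul, e, inv_smul_smul]

end Ctx

end Reducts
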