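import Pool.Agent.Helper75.Reducts.Types
import Pool.Agent.Helper79.Reducts.Exist

/-!
# Generic types and independence
-/

namespace Reducts

open Equiv MulAction
open scoped Pointwise

namespace Ctx

variable {M : Type*} [Group M] {X : Ctx M} {Ω : Type*} [MulAction M Ω] {Ω' : Type*}
  [MulAction M Ω']

theorem mem_stab_of_iff {U : Set (Set Ω)} {m : M} (h : ∀ P, m • P ∈ U ↔ P ∈ U) :
    m ∈ stabilizer M U := by
  rw [mem_stabilizer_iff]
  ext P
  rw [Set.mem_smul_set_iff_inv_smul_mem, ← h (m⁻¹ • P), smul_inv_smul]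

theorem IsUlt.finite_union {U : Set (Set Ω)} (h : X.IsUlt U) {ι : Type*} (s : Finset ι)
    (P : ι → Set Ω) (hP : ∀ i ∈ s, X.Cont (P i)) (hmem : (⋃ i ∈ s, P i) ∈ U) :
    ∃ i ∈ s, P i ∈ U := by
  classical
  by_contra hcon
  push Not at hcon
  have h1 : (⋂ i ∈ s, (P i)ᶜ) ∈ U := h.finite_inter s _ (fun i hi => h.compl_mem (hP i hi) (hcon i hi))
  have h2 := h.inter _ h1 _ hmem
  have h3 : (⋂ i ∈ s, (P i)ᶜ) ∩ (⋃ i ∈ s, P i) = ∅ := by
    rw [Set.eq_empty_iff_forall_notMem]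
    rintro x ⟨hx1, hx2⟩
    rw [Set.mem_iUnion₂] at hx2
    obtain ⟨i, hi, hx⟩ := hx2
    exact (Set.mem_iInter₂.1 hx1 i hi) hx
  rw [h3] at h2
  exact h.empty h2

theorem cont_of_mem_orb {N : Subgroup M} {a b : Ω} (ha : X.Cont a) (hb : b ∈ orb N a) :
    X.Cont b := by
  obtain ⟨n, _, rfl⟩ := hb
  exact ha.smul n

/-- the family of sets containing a given point -/
def Wt (x : Ω) : Set (Set Ω) := {P | x ∈ P}

theorem smul_Wt (m : M) (x : Ω) : m • (Wt x : Set (Set Ω)) = Wt (m • x) := by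
  ext P
  rw [Set.mem_smul_set_iff_inv_smul_mem]
  unfold Wt
  rw [Set.mem_ofPred_eq, Set.mem_ofPred_eq, Set.mem_smul_set_iff_inv_smul_mem, inv_inv]

theorem cont_Wt {x : Ω} (hx : X.Cont x) : X.Cont (Wt x : Set (Set Ω)) := by
  apply X.opn_mono hx
  intro m hm
  rw [mem_stabilizer_iff] at hm ⊢
  rw [smul_Wt, hm]

theorem Wt_mem_q {x : Ω} (hx : X.Cont x) {P : Set Ω} (hP : X.Cont P) {S : Finset ℕ} :
    (Wt x : Set (Set Ω)) ∈ X.q P S ↔ P ∈ X.q x S := by
  obtain ⟨g, hg⟩ := exists_fresh S (X.sp P) (X.sp (Wt x : Set (Set Ω)) ∪ X.sp x)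
  have hg' : FreshM S (X.sp x) (X.sp P) g⁻¹ := by
    refine ⟨hg.1.inv, fun i hi hiS hmem => ?_⟩
    by_cases hS : g⁻¹ i ∈ S
    · have := hg.1 _ hS
      rw [ap_inv] at this
      exact hiS (this ▸ hS)
    · have := hg.2 _ hmem hS
      rw [ap_inv] at this
      exact this (Finset.mem_union_right _ hi)
  rw [mem_q hP (cont_Wt hx) (hg.mono subset_rfl Finset.subset_union_left), mem_q hx hP hg']
  unfold Wt
  rw [Set.mem_ofPred_eq, Set.mem_smul_set_iff_inv_smul_mem, map_inv]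

theorem IsGen.unique {N : Subgroup M} (hN : X.Cn N) {a : Ω} (ha : X.Cont a) {U U' : Set (Set Ω)}
    (h : X.IsGen N a U) (h' : X.IsGen N a U') : U = U' := by
  apply h.ult.eq_of_subset h'.ult
  intro P hP
  have hPc := h.ult.cont P hP
  have hS := has_supp hN.opn
  obtain ⟨R, hR⟩ := exists_gen hN hPc
  obtain ⟨a1, ha1, e1, -⟩ := exists_rep hN.opn hS ha h.ult (hS.mono subset_rfl h.inv) h.mem ∅
  obtain ⟨a2, ha2, e2, -⟩ := exists_rep hN.opn hS ha h'.ult (hS.mono subset_rfl h'.inv) h'.mem ∅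
  obtain ⟨P3, hP3, e3, -⟩ := exists_rep hN.opn hS hPc hR.ult (hS.mono subset_rfl hR.inv) hR.mem ∅
  have hP3c := cont_of_mem_orb hPc hP3
  have ha1c := cont_of_mem_orb ha ha1
  have ha2c := cont_of_mem_orb ha ha2
  obtain ⟨n, hn, hnP⟩ := hP3
  have h1 : P3 ∈ U := by
    rw [← hnP]
    exact (mem_iff_smul_mem (h.inv hn) _).2 hP
  rw [e1] at h1
  have h2 : (Wt a1 : Set (Set Ω)) ∈ R := by
    rw [e3]
    exact (Wt_mem_q ha1c hP3c).2 h1
  obtain ⟨k, hk, hka⟩ := orb_trans (orb_symm ha1) ha2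
  have h3 : (Wt a2 : Set (Set Ω)) ∈ R := by
    rw [← hka, ← smul_Wt]
    exact (mem_iff_smul_mem (hR.inv hk) _).2 h2
  rw [e3] at h3
  have h4 : P3 ∈ U' := by
    rw [e2]
    exact (Wt_mem_q ha2c hP3c).1 h3
  rw [← hnP] at h4
  exact (mem_iff_smul_mem (h'.inv hn) _).1 h4

theorem isGen_gen {N : Subgroup M} (hN : X.Cn N) {a : Ω} (ha : X.Cont a) :
    X.IsGen N a (X.gen N a) := by
  classical
  have h := exists_gen hN ha
  unfold gen
  rw [dif_pos h]
  exact h.choose_spec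

theorem gen_eq {N : Subgroup M} (hN : X.Cn N) {a : Ω} (ha : X.Cont a) {U : Set (Set Ω)}
    (h : X.IsGen N a U) : X.gen N a = U := IsGen.unique hN ha (isGen_gen hN ha) h

theorem cont_gen {N : Subgroup M} (hN : X.Cn N) {a : Ω} (ha : X.Cont a) :
    X.Cont (X.gen N a) := X.opn_mono hN.opn (isGen_gen hN ha).inv

theorem gen_smul {N : Subgroup M} (hN : X.Cn N) {a : Ω} (ha : X.Cont a) (m : M) :
    X.gen (cj m N) (m • a) = m • X.gen N a := by
  have h := isGen_gen hN ha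
  apply gen_eq (hN.cj m) (ha.smul m)
  refine ⟨h.ult.smul m, ?_, ?_⟩
  · rw [stab_smul]
    exact cj_mono h.inv
  · rw [← smul_orb]
    exact Set.smul_mem_smul_set h.mem

theorem gen_orb {N : Subgroup M} (hN : X.Cn N) {a b : Ω} (ha : X.Cont a) (hb : b ∈ orb N a) :
    X.gen N b = X.gen N a := by
  have h := isGen_gen hN ha
  apply gen_eq hN (cont_of_mem_orb ha hb)
  refine ⟨h.ult, h.inv, ?_⟩
  rw [orb_eq hb]
  exact h.mem

/-- the push-forward of a generic type under an equivariant map. -/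
theorem gen_preimage {f : Ω → Ω'} (hf : Eqv (M := M) f) {N : Subgroup M} (hN : X.Cn N) {a : Ω}
    (ha : X.Cont a) {P : Set Ω'} (hP : X.Cont P) :
    f ⁻¹' P ∈ X.gen N a ↔ P ∈ X.gen N (f a) := by
  have h := isGen_gen hN ha
  have e : X.gen N (f a) = {P | X.Cont P ∧ f ⁻¹' P ∈ X.gen N a} := by
    apply gen_eq hN (ha.eqv hf)
    refine ⟨⟨?_, ?_, ?_, ?_, ?_, ?_⟩, ?_, ?_⟩
    · intro P hP; exact hP.1
    · exact ⟨cont_univ, by rw [Set.preimage_univ]; exact h.ult.univ⟩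
    · intro P hP Q hQ
      exact ⟨hP.1.inter hQ.1, by rw [Set.preimage_inter]; exact h.ult.inter _ hP.2 _ hQ.2⟩
    · intro P hP Q hQ hPQ
      exact ⟨hQ, h.ult.mono _ hP.2 _ (hQ.preimage hf) (Set.preimage_mono hPQ)⟩
    · rintro ⟨_, h1⟩
      rw [Set.preimage_empty] at h1
      exact h.ult.empty h1
    · intro P hP
      rcases h.ult.compl _ (hP.preimage hf) with h1 | h1
      · exact Or.inl ⟨hP, h1⟩
      · exact Or.inr ⟨hP.compl, by rw [Set.preimage_compl]; exact h1⟩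
    · intro n hn
      apply mem_stab_of_iff
      intro P
      rw [Set.mem_ofPred_eq, Set.mem_ofPred_eq, cont_smul_iff, ← smul_preimage hf,
        mem_iff_smul_mem (h.inv hn)]
    · refine ⟨cont_orb hN.opn _, h.ult.mono _ h.mem _ ((cont_orb hN.opn _).preimage hf) ?_⟩
      rintro _ ⟨n, hn, rfl⟩
      exact ⟨n, hn, (hf n a).symm⟩
  rw [e]
  exact ⟨fun h => ⟨hP, h⟩, fun h => h.2⟩

/-- good representatives. -/
theorem exists_good {N : Subgroup M} (hN : X.Cn N) {S : Finset ℕ} (hS : X.Has S N) {a : Ω}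
    (ha : X.Cont a) (W : Finset ℕ) :
    ∃ a' ∈ orb N a, X.gen N a = X.q a' S ∧ ∀ i ∈ X.sp a', i ∉ S → i ∉ W := by
  have h := isGen_gen hN ha
  exact exists_rep hN.opn hS ha h.ult (hS.mono subset_rfl h.inv) h.mem W

theorem ind_iff {N : Subgroup M} (hN : X.Cn N) {S : Finset ℕ} (hS : X.Has S N) {a a' : Ω}
    (ha : X.Cont a) {b b' : Ω'} (hb : X.Cont b) (ha' : a' ∈ orb N a) (hq : X.gen N a = X.q a' S)
    (hb' : b' ∈ orb N b) (hd : ∀ i ∈ X.sp a', i ∉ S → i ∉ X.sp b') :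
    X.Ind N a (stabilizer M b) ↔ (a', b') ∈ orb N (a, b) := by
  obtain ⟨n, hn, rfl⟩ := hb'
  have h := isGen_gen hN ha
  have e : n • orb (N ⊓ stabilizer M b) a = orb (N ⊓ stabilizer M (n • b)) (n • a) := by
    rw [smul_orb, cj_inf, cj_of_mem hn, stab_smul]
  have hbc : X.Cont (n • b) := hb.smul n
  have hPc : X.Cont (orb (N ⊓ stabilizer M (n • b)) (n • a)) := cont_orb (X.opn_inf hN.opn hbc) _
  have hsub : X.sp (orb (N ⊓ stabilizer M (n • b)) (n • a)) ⊆ S ∪ X.sp (n • b) := by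
    apply sp_subset hPc
    apply sup_orb
    exact (hS.mono Finset.subset_union_left le_rfl).inf
      ((sup_sp hbc).mono Finset.subset_union_right)
  unfold Ind
  rw [← mem_iff_smul_mem (h.inv hn), e, hq, mem_q_self (cont_of_mem_orb ha ha') hPc]
  · constructor
    · rintro ⟨m, hm, hma⟩
      obtain ⟨hm1, hm2⟩ := Subgroup.mem_inf.1 hm
      refine ⟨m * n, N.mul_mem hm1 hn, ?_⟩
      rw [Prod.smul_mk, mul_smul, mul_smul, hma, mem_stabilizer_iff.1 hm2]
    · rintro ⟨k, hk, hkab⟩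
      rw [Prod.smul_mk, Prod.mk.injEq] at hkab
      refine ⟨k * n⁻¹, Subgroup.mem_inf.2 ⟨N.mul_mem hk (N.inv_mem hn), ?_⟩, ?_⟩
      · rw [mem_stabilizer_iff, smul_smul, inv_mul_cancel_right, hkab.2]
      · rw [smul_smul, inv_mul_cancel_right, hkab.1]
  · intro i hi hiS hmem
    rcases Finset.mem_union.1 (hsub hmem) with h1 | h1
    · exact hiS h1
    · exact hd i hi hiS h1

theorem ind_symm {N : Subgroup M} (hN : X.Cn N) {a : Ω} (ha : X.Cont a) {b : Ω'} (hb : X.Cont b)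
    (h : X.Ind N a (stabilizer M b)) : X.Ind N b (stabilizer M a) := by
  have hS := has_supp hN.opn
  obtain ⟨b', hb', eb, -⟩ := exists_good hN hS hb ∅
  obtain ⟨a', ha', ea, hd⟩ := exists_good hN hS ha (X.sp b')
  rw [ind_iff hN hS ha hb ha' ea hb' hd] at h
  rw [ind_iff hN hS hb ha hb' eb ha' (fun i hi hiS hi2 => hd i hi2 hiS hi)]
  obtain ⟨n, hn, hnab⟩ := h
  rw [Prod.smul_mk, Prod.mk.injEq] at hnab
  exact ⟨n, hn, by rw [Prod.smul_mk, Prod.mk.injEq]; exact ⟨hnab.2, hnab.1⟩⟩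

theorem ind_stat {N C : Subgroup M} (hN : X.Cn N) (_hC : X.opn C) {a a' : Ω} (ha : X.Cont a)
    (h : X.Ind N a C) (h' : X.Ind N a' C) (haa : a' ∈ orb N a) : a' ∈ orb (N ⊓ C) a := by
  unfold Ind at h h'
  rw [gen_orb hN ha haa] at h'
  have h1 := (isGen_gen hN ha).ult
  have h2 := h1.nonempty (h1.inter _ h _ h')
  rw [orb_eq_of_inter h2]
  exact mem_orb_self _ _

theorem cn_ext {N C : Subgroup M} (hN : X.opn N) (hC : X.opn C) : X.Cn (X.ext N C) :=
  cn_conn (X.opn_inf hN hC)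

theorem ext_le {N C : Subgroup M} (hN : X.opn N) (hC : X.opn C) : X.ext N C ≤ N ⊓ C :=
  conn_le (X.opn_inf hN hC)

theorem has_ext {N C : Subgroup M} {S : Finset ℕ} (hN : X.opn N) (hC : X.opn C)
    (h : X.Has S N) (h' : X.Has S C) : X.Has S (X.ext N C) :=
  has_conn (X.opn_inf hN hC) (h.inf h')

theorem ind_iff_gen {N C : Subgroup M} (hN : X.Cn N) (hC : X.opn C) {a : Ω} (ha : X.Cont a) :
    X.Ind N a C ↔ X.gen (X.ext N C) a = X.gen N a := by
  classical
  have hD := X.opn_inf hN.opn hC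
  have hE := cn_ext hN.opn hC
  have hG := isGen_gen hN ha
  constructor
  · intro h
    apply gen_eq hE ha
    refine ⟨hG.ult, ((ext_le hN.opn hC).trans inf_le_left).trans hG.inv, ?_⟩
    obtain ⟨F, hF, hFI⟩ := FI_conn hD
    let F' : Finset M := hF.toFinset.filter (fun f => f ∈ N ⊓ C)
    have hsub : orb (N ⊓ C) a = ⋃ f ∈ F', f • orb (X.ext N C) a := by
      ext y
      rw [Set.mem_iUnion₂]
      constructor
      · rintro ⟨c, hc, rfl⟩
        obtain ⟨f, hf, hfc⟩ := hFI c hc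
        have hfc' := conn_le hD hfc
        have hfD : f ∈ N ⊓ C := by
          have := (N ⊓ C).mul_mem hc ((N ⊓ C).inv_mem hfc')
          simpa [mul_assoc] using this
        refine ⟨f, Finset.mem_filter.2 ⟨hF.mem_toFinset.2 hf, hfD⟩, ?_⟩
        rw [Set.mem_smul_set_iff_inv_smul_mem, smul_smul]
        exact ⟨_, hfc, rfl⟩
      · rintro ⟨f, hf, hy⟩
        rw [Set.mem_smul_set_iff_inv_smul_mem] at hy
        have := orb_mono (ext_le hN.opn hC) a hy
        have h2 := smul_mem_orb (Finset.mem_filter.1 hf).2 (f⁻¹ • y)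
        rw [smul_inv_smul] at h2
        exact orb_trans this h2
    unfold Ind at h
    rw [hsub] at h
    obtain ⟨f, hf, hfmem⟩ := hG.ult.finite_union F' _ (fun f _ => (cont_orb hE.opn a).smul f) h
    exact (mem_iff_smul_mem (hG.inv (Subgroup.mem_inf.1 (Finset.mem_filter.1 hf).2).1) _).1 hfmem
  · intro h
    have h1 := (isGen_gen hE ha).mem
    rw [h] at h1
    exact hG.ult.mono _ h1 _ (cont_orb hD a) (orb_mono (ext_le hN.opn hC) a)

theorem ext_ext {N C C' : Subgroup M} (hN : X.opn N) (hC : X.opn C) (hC' : X.opn C') :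
    X.ext (X.ext N C) C' = X.ext N (C ⊓ C') := by
  have hD := X.opn_inf hN hC
  apply conn_eq_of_FI (X.opn_inf (cn_ext hN hC).opn hC')
  · refine le_inf ?_ (le_inf ?_ inf_le_right)
    · exact inf_le_left.trans ((ext_le hN hC).trans inf_le_left)
    · exact inf_le_left.trans ((ext_le hN hC).trans inf_le_right)
  · apply FI.inf
    · exact (FI_conn hD).mono le_rfl (le_inf inf_le_left (inf_le_right.trans inf_le_left))
    · exact FI.of_le (inf_le_right.trans inf_le_right)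

theorem ind_le {N C C' : Subgroup M} (hN : X.Cn N) (hC' : X.opn C') {a : Ω}
    (ha : X.Cont a) (h : X.Ind N a C) (hle : C ≤ C') : X.Ind N a C' :=
  (isGen_gen hN ha).ult.mono _ h _ (cont_orb (X.opn_inf hN.opn hC') a)
    (orb_mono (inf_le_inf_left N hle) a)

theorem ind_inf {N C C' : Subgroup M} (hN : X.Cn N) (hC : X.opn C) (hC' : X.opn C') {a : Ω}
    (ha : X.Cont a) : X.Ind N a (C ⊓ C') ↔ X.Ind N a C ∧ X.Ind (X.ext N C) a C' := by
  have hE := cn_ext hN.opn hC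
  constructor
  · intro h
    have h1 := ind_le hN hC ha h inf_le_left
    refine ⟨h1, ?_⟩
    rw [ind_iff_gen hE hC' ha, ext_ext hN.opn hC hC', (ind_iff_gen hN hC ha).1 h1]
    exact (ind_iff_gen hN (X.opn_inf hC hC') ha).1 h
  · rintro ⟨h1, h2⟩
    rw [ind_iff_gen hN (X.opn_inf hC hC') ha, ← ext_ext hN.opn hC hC',
      (ind_iff_gen hE hC' ha).1 h2, (ind_iff_gen hN hC ha).1 h1]

theorem ind_mono {N C C' : Subgroup M} (hN : X.Cn N) (hC : X.opn C) (hC' : X.opn C') {a : Ω}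
    (ha : X.Cont a) (h : X.Ind N a C) (hle : X.ext N C ≤ C') : X.Ind N a C' := by
  have hE := cn_ext hN.opn hC
  have hG := isGen_gen hN ha
  have h1 := (isGen_gen hE ha).mem
  rw [(ind_iff_gen hN hC ha).1 h] at h1
  exact hG.ult.mono _ h1 _ (cont_orb (X.opn_inf hN.opn hC') a)
    (orb_mono (le_inf ((ext_le hN.opn hC).trans inf_le_left) hle) a)

theorem ind_of_le {N C : Subgroup M} (hN : X.Cn N) {a : Ω} (ha : X.Cont a)
    (h : N ≤ stabilizer M a) : X.Ind N a C := by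
  unfold Ind
  have h1 := (isGen_gen hN ha).mem
  rw [orb_of_le_stab h] at h1
  rwa [orb_of_le_stab (inf_le_left.trans h)]

theorem le_of_ind {N C : Subgroup M} (hN : X.Cn N) (hC : X.opn C) {a : Ω} (ha : X.Cont a)
    (h : X.Ind N a C) (hle : X.ext N C ≤ stabilizer M a) : N ≤ stabilizer M a := by
  have hE := cn_ext hN.opn hC
  have hG := isGen_gen hN ha
  have h1 := (isGen_gen hE ha).mem
  rw [(ind_iff_gen hN hC ha).1 h, orb_of_le_stab hle] at h1
  exact le_stab_of_mem_singleton hG.ult hG.inv h1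

theorem ind_smul {N C : Subgroup M} (hN : X.Cn N) {a : Ω} (ha : X.Cont a) (m : M) :
    X.Ind (cj m N) (m • a) (cj m C) ↔ X.Ind N a C := by
  unfold Ind
  rw [gen_smul hN ha, ← cj_inf, ← smul_orb, Set.smul_mem_smul_set_iff]

end Ctx

end Reducts
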