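import Pool.Agent.Helper75.Reducts.Triv
import Pool.Agent.Helper75.Reducts.Chain

/-!
# Small bases and joint independence
-/

namespace Reducts

open Equiv MulAction
open scoped Pointwise

section
variable {M : Type*} [Group M] {Ω : Type*} [MulAction M Ω]

/-- the pointwise stabiliser of a finite set. -/
def fx (M : Type*) [Group M] {Ω : Type*} [MulAction M Ω] (F : Finset Ω) : Subgroup M :=
  ⨅ b ∈ F, stabilizer M b

theorem mem_fx {F : Finset Ω} {m : M} : m ∈ fx M F ↔ ∀ b ∈ F, m • b = b := by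
  unfold fx
  simp only [Subgroup.mem_iInf, mem_stabilizer_iff]

theorem fx_empty : fx M (∅ : Finset Ω) = ⊤ := by
  ext m; simp [mem_fx]

theorem fx_anti {F F' : Finset Ω} (h : F ⊆ F') : fx M F' ≤ fx M F :=
  fun _ hm => mem_fx.2 (fun b hb => mem_fx.1 hm b (h hb))

theorem fx_union [DecidableEq Ω] (F F' : Finset Ω) : fx M (F ∪ F') = fx M F ⊓ fx M F' := by
  ext m
  rw [Subgroup.mem_inf, mem_fx, mem_fx, mem_fx]
  constructor
  · intro h
    exact ⟨fun b hb => h b (Finset.mem_union_left _ hb), fun b hb => h b (Finset.mem_union_right _ hb)⟩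
  · rintro ⟨h1, h2⟩ b hb
    rcases Finset.mem_union.1 hb with hb | hb
    · exact h1 b hb
    · exact h2 b hb

theorem fx_singleton (b : Ω) : fx M ({b} : Finset Ω) = stabilizer M b := by
  ext m; simp [mem_fx]

theorem fx_insert [DecidableEq Ω] (b : Ω) (F : Finset Ω) :
    fx M (insert b F) = fx M F ⊓ stabilizer M b := by
  rw [Finset.insert_eq, fx_union, fx_singleton, inf_comm]

theorem stab_pi {ι : Type*} [Fintype ι] [DecidableEq Ω] (t : ι → Ω) :
    stabilizer M t = fx M (Finset.univ.image t) := by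
  ext m
  rw [mem_stabilizer_iff, mem_fx]
  constructor
  · intro h b hb
    obtain ⟨i, _, rfl⟩ := Finset.mem_image.1 hb
    exact congrFun h i
  · intro h
    funext i
    exact h _ (Finset.mem_image_of_mem _ (Finset.mem_univ i))

theorem stab_incl (F : Finset Ω) : stabilizer M (fun b : F => (b : Ω)) = fx M F := by
  ext m
  rw [mem_stabilizer_iff, mem_fx]
  constructor
  · intro h b hb
    exact congrFun h ⟨b, hb⟩
  · intro h
    funext i
    exact h _ i.2

end

namespace Ctx

variable {M : Type*} [Group M] {X : Ctx M} {Ω : Type*} [MulAction M Ω] {Ω' : Type*}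
  [MulAction M Ω']

theorem opn_fx (hc : ∀ b : Ω, X.Cont b) (F : Finset Ω) : X.opn (fx M F) := by
  classical
  induction F using Finset.induction_on with
  | empty => rw [fx_empty]; exact X.opn_top
  | insert b F _ ih => rw [fx_insert]; exact X.opn_inf ih (hc b)

variable (X) in
/-- the connected base attached to a finite set. -/
def NF (F : Finset Ω) : Subgroup M := X.conn (fx M F)

theorem cn_NF (hc : ∀ b : Ω, X.Cont b) (F : Finset Ω) : X.Cn (X.NF F) := cn_conn (opn_fx hc F)

theorem NF_le (hc : ∀ b : Ω, X.Cont b) (F : Finset Ω) : X.NF F ≤ fx M F := conn_le (opn_fx hc F)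

theorem ext_NF [DecidableEq Ω] (hc : ∀ b : Ω, X.Cont b) (F : Finset Ω) {C : Subgroup M}
    (hC : X.opn C) : X.ext (X.NF F) C = X.conn (fx M F ⊓ C) := by
  have hD := opn_fx hc F
  apply conn_eq_of_FI (X.opn_inf (cn_NF hc F).opn hC)
  · exact le_inf (inf_le_left.trans (NF_le hc F)) inf_le_right
  · apply FI.inf
    · exact (FI_conn hD).mono le_rfl inf_le_left
    · exact FI.of_le inf_le_right

/-- triviality for finite sets. -/
theorem ind_fx (hc : ∀ b : Ω, X.Cont b) {N : Subgroup M} (hN : X.Cn N) {a : Ω'} (ha : X.Cont a)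
    (F : Finset Ω) (h : ∀ b ∈ F, X.Ind N a (stabilizer M b)) : X.Ind N a (fx M F) := by
  classical
  induction F using Finset.induction_on with
  | empty =>
    rw [fx_empty]
    unfold Ind
    rw [inf_top_eq]
    exact (isGen_gen hN ha).mem
  | insert b F _ ih =>
    rw [fx_insert]
    exact ind_triv hN (opn_fx hc F) (hc b) ha
      (ih (fun b' hb' => h b' (Finset.mem_insert_of_mem hb'))) (h b (Finset.mem_insert_self _ _))

/-- small bases. -/
theorem small_base (hc : ∀ b : Ω, X.Cont b) {a : Ω'} (ha : X.Cont a) {d : ℕ}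
    (hd : ∀ m : M, (X.sp (m • a)).card ≤ d) (W : Finset Ω) :
    ∃ W0 ⊆ W, W0.card ≤ d ∧ ∀ b ∈ W, X.Ind (X.NF W0) a (stabilizer M b) := by
  classical
  by_contra hcon
  push Not at hcon
  -- a step function
  have hstep : ∀ F : Finset Ω, ∃ b : Ω, True := by
    intro F
    obtain ⟨b, _⟩ := hcon ∅ (Finset.empty_subset _) (Nat.zero_le _)
    exact ⟨b, trivial⟩
  let nx : Finset Ω → Ω := fun F =>
    if h : ∃ b ∈ W, ¬ X.Ind (X.NF F) a (stabilizer M b) then h.choose else (hstep F).choose
  have hnx : ∀ F ⊆ W, F.card ≤ d → nx F ∈ W ∧ ¬ X.Ind (X.NF F) a (stabilizer M (nx F)) := by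
    intro F hF hcard
    have h := hcon F hF hcard
    have h' : ∃ b ∈ W, ¬ X.Ind (X.NF F) a (stabilizer M b) := h
    have e : nx F = h'.choose := by simp only [nx, dif_pos h']
    rw [e]
    exact h'.choose_spec
  let Fs : ℕ → Finset Ω := fun n => Nat.rec ∅ (fun _ F => insert (nx F) F) n
  have hF0 : Fs 0 = ∅ := rfl
  have hFs : ∀ n, Fs (n + 1) = insert (nx (Fs n)) (Fs n) := fun n => rfl
  have hprop : ∀ n ≤ d + 1, Fs n ⊆ W ∧ (Fs n).card ≤ n := by
    intro n
    induction n with
    | zero => intro _; rw [hF0]; simp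
    | succ n ih =>
      intro hn
      obtain ⟨h1, h2⟩ := ih (by omega)
      rw [hFs]
      exact ⟨Finset.insert_subset (hnx _ h1 (by omega)).1 h1,
        (Finset.card_insert_le _ _).trans (by omega)⟩
  have hbound := chain_bound ha hd (cn_NF hc ∅) (fun i => stabilizer M (nx (Fs i)))
    (fun i => hc _) (d + 1) (fun i => X.NF (Fs i)) rfl (by
      intro i
      rw [ext_NF hc _ (hc _), ← fx_insert, ← hFs]
      rfl) (by
      intro i hi
      obtain ⟨h1, h2⟩ := hprop i (by omega)
      exact (hnx _ h1 (by omega)).2)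
  omega

/-- joint independence. -/
theorem joint (hc : ∀ b : Ω, X.Cont b) {N : Subgroup M} (hN : X.Cn N) {ι : Type*} [Fintype ι]
    (t : ι → Ω) (F : Finset Ω) (h : ∀ i, ∀ b ∈ F, X.Ind N (t i) (stabilizer M b)) :
    X.Ind N t (fx M F) := by
  classical
  have ht : X.Cont t := by
    unfold Cont
    rw [stab_pi]
    exact opn_fx hc _
  have hw : X.Cont (fun b : F => (b : Ω)) := by
    unfold Cont
    rw [stab_incl]
    exact opn_fx hc _
  rw [← stab_incl]
  apply ind_symm hN hw ht
  rw [stab_pi]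
  apply ind_fx hc hN hw
  intro b hb
  obtain ⟨i, _, rfl⟩ := Finset.mem_image.1 hb
  apply ind_symm hN (hc _) hw
  rw [stab_incl]
  exact ind_fx hc hN (hc _) F (h i)

end Ctx

end Reducts
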