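import Pool.Agent.Helper75.Reducts.Swap

/-!
# Claim A and the finiteness theorem
-/

namespace Reducts

open Equiv MulAction
open scoped Pointwise

variable {B : Type*} [MulAction (Perm ℕ) B]

omit [MulAction (Perm ℕ) B] in
theorem pinv_ap (k : Perm B) (b : B) : k⁻¹ (k b) = b := by simp

omit [MulAction (Perm ℕ) B] in
theorem pap_inv (k : Perm B) (b : B) : k (k⁻¹ b) = b := by simp

/-- `F` is a witness for `(H, S)`: every subgroup `U` of `H` which is open in `H` and contains the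
image of the stabiliser of `S` contains the pointwise stabiliser of `F` in `H`. -/
def Wit (H : Subgroup (Perm B)) (S : Finset ℕ) (F : Finset B) : Prop :=
  ∀ U : Subgroup (Perm B), U ≤ H → (∃ F' : Finset B, ∀ h ∈ H, (∀ b ∈ F', h b = b) → h ∈ U) →
    (∀ g, Fx S g → ph B g ∈ U) → ∀ h ∈ H, (∀ b ∈ F, h b = b) → h ∈ U

theorem exists_wit (hfs : FinSupp B) (hof : OrbFin B) (H : Subgroup (Perm B)) (hH : IsClosedSub H)
    (hG : ContainsFx ∅ H) (S : Finset ℕ) : ∃ F, Wit H S F := by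
  classical
  let Y := closedCtx hfs hof H hH hG
  obtain ⟨U0, ⟨⟨F, hF⟩, hS0⟩, hmin⟩ := Ctx.exists_min (X := Y) S
    (fun U => Y.opn U ∧ Y.Has S U) (fun _ h => h)
    ⟨⊤, Y.opn_top, fun _ _ => Subgroup.mem_top _⟩
  refine ⟨F, fun U hUH hU hS h hh hfix => ?_⟩
  have hopen : Y.opn (U.subgroupOf H) := by
    obtain ⟨F', hF'⟩ := hU
    exact ⟨F', fun k hk => Subgroup.mem_subgroupOf.2 (hF' k k.2 hk)⟩
  have hhas : Y.Has S (U.subgroupOf H) := fun g hg => Subgroup.mem_subgroupOf.2 (hS g hg)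
  have h1 := hmin (U0 ⊓ U.subgroupOf H)
    ⟨Y.opn_inf ⟨F, hF⟩ hopen, fun g hg => Subgroup.mem_inf.2 ⟨hS0 g hg, hhas g hg⟩⟩ inf_le_left
  have h2 : (⟨h, hh⟩ : H) ∈ U0 := hF ⟨h, hh⟩ hfix
  rw [← h1] at h2
  exact Subgroup.mem_subgroupOf.1 (Subgroup.mem_inf.1 h2).2

/-- the group of the elements which may be inserted before `E`. -/
def Ins (K H : Subgroup (Perm B)) (E : Finset B) : Subgroup (Perm B) where
  carrier := {u | u ∈ H ∧ ∀ h ∈ H, ∃ k ∈ K, ∀ b ∈ E, h (u b) = k (h b)}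
  one_mem' := ⟨H.one_mem, fun _ _ => ⟨1, K.one_mem, fun _ _ => rfl⟩⟩
  mul_mem' := by
    rintro u v ⟨hu, hu2⟩ ⟨hv, hv2⟩
    refine ⟨H.mul_mem hu hv, fun h hh => ?_⟩
    obtain ⟨k, hk, hk2⟩ := hv2 (h * u) (H.mul_mem hh hu)
    obtain ⟨k', hk', hk2'⟩ := hu2 h hh
    refine ⟨k * k', K.mul_mem hk hk', fun b hb => ?_⟩
    have e1 := hk2 b hb
    have e2 := hk2' b hb
    rw [Perm.mul_apply, Perm.mul_apply, e2] at e1
    rw [Perm.mul_apply, Perm.mul_apply, e1]
  inv_mem' := by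
    rintro u ⟨hu, hu2⟩
    refine ⟨H.inv_mem hu, fun h hh => ?_⟩
    obtain ⟨k, hk, hk2⟩ := hu2 (h * u⁻¹) (H.mul_mem hh (H.inv_mem hu))
    refine ⟨k⁻¹, K.inv_mem hk, fun b hb => ?_⟩
    have e1 := hk2 b hb
    have e2 : (h * u⁻¹) (u b) = h b := by rw [← Perm.mul_apply, inv_mul_cancel_right]
    rw [e2] at e1
    rw [e1, pinv_ap]
    rfl

theorem claimA (hfs : FinSupp B) (hof : OrbFin B) {d : ℕ}
    (hd : ∀ b : B, ∃ S : Finset ℕ, S.card ≤ d ∧ ∀ g : Perm ℕ, Fx S g → g • b = b)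
    (K : Subgroup (Perm B)) (hK : IsClosedSub K)
    (hG : ContainsFx ∅ K) {H : Subgroup (Perm B)} (hKH : K ≤ H) (hne : K ≠ H) :
    ∃ S : Finset ℕ, S.card ≤ d * (d + 2) ∧ ∀ F, Wit H S F → ¬ Agree K H F := by
  classical
  let X := closedCtx hfs hof K hK hG
  have hc : ∀ b : B, X.Cont b := cont_point hfs hof K hK hG
  have hdX : ∀ b : B, (X.sp b).card ≤ d := by
    intro b
    obtain ⟨S, hS, hS2⟩ := hd b
    exact (Finset.card_le_card (Ctx.sp_subset (hc b) (fun g hg => hS2 g hg))).trans hS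
  have hex : ∃ n, ∃ E : Finset B, E.card = n ∧ ¬ Agree K H E := by
    by_contra hcon
    push Not at hcon
    apply hne
    apply le_antisymm hKH
    intro h hh
    apply hK
    intro F
    exact hcon _ F rfl h hh
  obtain ⟨E, hEn, hE⟩ := Nat.find_spec hex
  set n := Nat.find hex with hn
  have hmin : ∀ E' : Finset B, E'.card < n → Agree K H E' := by
    intro E' hE'
    by_contra hcon
    exact Nat.find_min hex hE' ⟨E', rfl, hcon⟩
  have hEpos : 1 ≤ n := by
    rw [← hEn]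
    apply Finset.card_pos.2
    rw [Finset.nonempty_iff_ne_empty]
    rintro rfl
    exact hE (fun _ _ => ⟨1, K.one_mem, fun _ hb => absurd hb (Finset.notMem_empty _)⟩)
  let T := E.biUnion (fun b => X.sp b)
  let S := T.filter (fun x => n ≤ (d + 2) * (E.filter (fun b => x ∈ X.sp b)).card)
  have hScard : S.card ≤ d * (d + 2) := by
    have h1 : S.card * n ≤ ∑ x ∈ S, (d + 2) * (E.filter (fun b => x ∈ X.sp b)).card := by
      rw [← smul_eq_mul]
      apply Finset.card_nsmul_le_sum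
      intro x hx
      exact (Finset.mem_filter.1 hx).2
    have h2 : ∑ x ∈ S, (E.filter (fun b => x ∈ X.sp b)).card =
        ∑ b ∈ E, (S.filter (fun x => x ∈ X.sp b)).card :=
      Finset.sum_card_bipartiteAbove_eq_sum_card_bipartiteBelow (fun x b => x ∈ X.sp b)
    have h3 : ∑ b ∈ E, (S.filter (fun x => x ∈ X.sp b)).card ≤ ∑ b ∈ E, d := by
      apply Finset.sum_le_sum
      intro b _
      refine (Finset.card_le_card ?_).trans (hdX b)
      intro x hx
      exact (Finset.mem_filter.1 hx).2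
    rw [Finset.sum_const, smul_eq_mul, hEn] at h3
    rw [← Finset.mul_sum, h2] at h1
    have h4 : S.card * n ≤ (d * (d + 2)) * n := by
      calc S.card * n ≤ (d + 2) * (∑ b ∈ E, (S.filter (fun x => x ∈ X.sp b)).card) := h1
        _ ≤ (d + 2) * (n * d) := Nat.mul_le_mul_left _ h3
        _ = (d * (d + 2)) * n := by ring
    exact Nat.le_of_mul_le_mul_right h4 hEpos
  refine ⟨S, hScard, fun F hF hagree => hE ?_⟩
  have hopen : ∃ F' : Finset B, ∀ h ∈ H, (∀ b ∈ F', h b = b) → h ∈ Ins K H E := by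
    refine ⟨E, fun u hu hfix => ⟨hu, fun h _ => ⟨1, K.one_mem, fun b hb => ?_⟩⟩⟩
    rw [hfix b hb]
    rfl
  have hphH : ∀ g : Perm ℕ, ph B g ∈ H := fun g => hKH (hG g (fun _ hi => absurd hi (Finset.notMem_empty _)))
  have hS : ∀ g, Fx S g → ph B g ∈ Ins K H E := by
    apply fx_le_of_swaps' ((Ins K H E).comap (MulAction.toPermHom (Perm ℕ) B)) T S
    · intro g hg
      rw [Subgroup.mem_comap]
      refine ⟨hphH g, fun h _ => ⟨1, K.one_mem, fun b hb => ?_⟩⟩
      have : ph B g b = b := (Ctx.sup_sp (hc b)).smul_eq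
        (hg.mono (Finset.subset_biUnion_of_mem (fun b => X.sp b) hb))
      rw [this]
      rfl
    · intro x hxT hxS y hyT
      rw [Subgroup.mem_comap]
      refine ⟨hphH _, fun h hh => ?_⟩
      have hlt : (d + 2) * (E.filter (fun b => x ∈ X.sp b)).card < n := by
        by_contra hcon
        exact hxS (Finset.mem_filter.2 ⟨hxT, not_lt.1 hcon⟩)
      obtain ⟨b0, hb0, hb0x⟩ := Finset.mem_biUnion.1 hxT
      obtain ⟨k, hk, hk2⟩ := swap_claim hfs hof K hK hG hKH hdX hmin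
        (E.filter (fun b => x ∈ X.sp b)) (E.filter (fun b => x ∉ X.sp b))
        ⟨b0, Finset.mem_filter.2 ⟨hb0, hb0x⟩⟩ hlt x y
        (fun b hb => (Finset.mem_filter.1 hb).2)
        (fun b hb hy => hyT (Finset.mem_biUnion.2 ⟨b, (Finset.mem_filter.1 hb).1, hy⟩)) h hh
      refine ⟨k, hk, fun b hb => hk2 b ?_⟩
      by_cases hx : x ∈ X.sp b
      · exact Or.inl (Finset.mem_filter.2 ⟨hb, hx⟩)
      · exact Or.inr (Finset.mem_filter.2 ⟨hb, hx⟩)
  intro h hh
  obtain ⟨k, hk, hk2⟩ := hagree h hh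
  have hmem : k⁻¹ * h ∈ Ins K H E := by
    apply hF (Ins K H E) (fun _ hu => hu.1) hopen hS _ (H.mul_mem (H.inv_mem (hKH hk)) hh)
    intro b hb
    rw [Perm.mul_apply, Perm.inv_eq_iff_eq]
    exact (hk2 b hb).symm
  obtain ⟨k', hk', hk2'⟩ := hmem.2 1 H.one_mem
  refine ⟨k * k', K.mul_mem hk hk', fun b hb => ?_⟩
  have e := hk2' b hb
  rw [Perm.one_apply, Perm.one_apply, Perm.mul_apply, Perm.inv_eq_iff_eq] at e
  rw [Perm.mul_apply, e]

theorem claimA' (hfs : FinSupp B) (hof : OrbFin B) (H : Subgroup (Perm B)) (hH : IsClosedSub H)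
    (hGH : ContainsFx ∅ H) : ∃ Fs : Finset (Finset B), ∀ K : Subgroup (Perm B), IsClosedSub K →
      ContainsFx ∅ K → K ≤ H → K ≠ H → ∃ F ∈ Fs, ¬ Agree K H F := by
  classical
  obtain ⟨d, hd⟩ : ∃ d : ℕ, ∀ b : B, ∃ S : Finset ℕ, S.card ≤ d ∧
      ∀ g : Perm ℕ, Fx S g → g • b = b := by
    obtain ⟨F, hF⟩ := hof
    choose s hs using hfs
    refine ⟨F.sup (fun f => (s f).card), fun b => ?_⟩
    obtain ⟨g, f, hf, rfl⟩ := hF b
    refine ⟨(s f).image g, Finset.card_image_le.trans (Finset.le_sup (f := fun f => (s f).card) hf),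
      fun k hk => ?_⟩
    have h1 := hs f _ (hk.conj g)
    rw [mul_smul, mul_smul, inv_smul_eq_iff] at h1
    exact h1
  choose F hF using exists_wit hfs hof H hH hGH
  refine ⟨(Finset.range (d * (d + 2) + 1)).image (fun j => F (Finset.range j)), ?_⟩
  intro K hK hG hKH hne
  obtain ⟨S, hS, hS2⟩ := claimA hfs hof hd K hK hG hKH hne
  refine ⟨F (Finset.range S.card), Finset.mem_image_of_mem _
    (Finset.mem_range.2 (Nat.lt_succ_of_le hS)), fun hagree => ?_⟩
  -- a permutation taking `range S.card` to `S`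
  obtain ⟨g, hg⟩ := exists_perm_ext (Finset.range S.card)
    (fun i => if h : i < S.card then S.orderEmbOfFin rfl ⟨i, h⟩ else 0) (by
      intro i hi j hj hij
      have hi' := Finset.mem_range.1 (Finset.mem_coe.1 hi)
      have hj' := Finset.mem_range.1 (Finset.mem_coe.1 hj)
      simp only [hi', hj', dif_pos] at hij
      have := (S.orderEmbOfFin rfl).injective hij
      simpa using this)
  have hgS : ∀ i ∈ Finset.range S.card, g i ∈ S := by
    intro i hi
    rw [hg i hi, dif_pos (Finset.mem_range.1 hi)]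
    exact Finset.orderEmbOfFin_mem S rfl _
  have hphK : ∀ g : Perm ℕ, ph B g ∈ K := fun g => hG g (fun _ hi => absurd hi (Finset.notMem_empty _))
  apply hS2 ((F (Finset.range S.card)).image (ph B g))
  · intro U hUH hU hUS h hh hfix
    have key := hF (Finset.range S.card) (cj (ph B g)⁻¹ U) (by
      intro u hu
      rw [mem_cj, inv_inv] at hu
      have h1 := hUH hu
      have h2 := hKH (hphK g)
      have h3 := H.mul_mem (H.mul_mem (H.inv_mem h2) h1) h2
      simpa [mul_assoc] using h3) (by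
      obtain ⟨F', hF'⟩ := hU
      refine ⟨F'.image (fun b => (ph B g)⁻¹ b), fun u hu hufix => ?_⟩
      rw [mem_cj, inv_inv]
      apply hF' _ (H.mul_mem (H.mul_mem (hKH (hphK g)) hu) (H.inv_mem (hKH (hphK g))))
      intro b hb
      have := hufix _ (Finset.mem_image_of_mem _ hb)
      rw [Perm.mul_apply, Perm.mul_apply, this, ← Perm.mul_apply, mul_inv_cancel, Perm.one_apply])
      (by
      intro k hk
      rw [mem_cj, inv_inv]
      have h1 : ph B g * ph B k * (ph B g)⁻¹ = ph B (g * k * g⁻¹) := by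
        simp only [map_mul, map_inv]
      rw [h1]
      apply hUS
      intro i hi
      have hinv : g⁻¹ i ∈ Finset.range S.card := by
        have himg : (Finset.range S.card).image g = S := by
          apply Finset.eq_of_subset_of_card_le
          · intro j hj
            obtain ⟨j', hj', rfl⟩ := Finset.mem_image.1 hj
            exact hgS j' hj'
          · rw [Finset.card_image_of_injective _ g.injective, Finset.card_range]
        rw [← himg] at hi
        obtain ⟨j, hj, rfl⟩ := Finset.mem_image.1 hi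
        rw [inv_ap]
        exact hj
      rw [Perm.mul_apply, Perm.mul_apply, hk _ hinv, ap_inv])
      ((ph B g)⁻¹ * h * ph B g)
      (H.mul_mem (H.mul_mem (H.inv_mem (hKH (hphK g))) hh) (hKH (hphK g))) (by
      intro b hb
      rw [Perm.mul_apply, Perm.mul_apply, hfix _ (Finset.mem_image_of_mem _ hb),
        ← Perm.mul_apply, inv_mul_cancel, Perm.one_apply])
    rw [mem_cj, inv_inv] at key
    simpa [mul_assoc] using key
  · intro h hh
    obtain ⟨k, hk, hk2⟩ := hagree (h * ph B g) (H.mul_mem hh (hKH (hphK g)))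
    refine ⟨k * (ph B g)⁻¹, K.mul_mem hk (K.inv_mem (hphK g)), fun b hb => ?_⟩
    obtain ⟨b', hb', rfl⟩ := Finset.mem_image.1 hb
    have e := hk2 b' hb'
    rw [Perm.mul_apply] at e
    rw [← e, Perm.mul_apply, ← Perm.mul_apply _ (ph B g), inv_mul_cancel, Perm.one_apply]

/-- the elements of `H` preserving the `K`-orbits on `F`-tuples. -/
def LF (K H : Subgroup (Perm B)) (F : Finset B) : Subgroup (Perm B) where
  carrier := {h | h ∈ H ∧ ∀ e : F → B, ∃ k ∈ K, ∀ i, h (e i) = k (e i)}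
  one_mem' := ⟨H.one_mem, fun _ => ⟨1, K.one_mem, fun _ => rfl⟩⟩
  mul_mem' := by
    rintro u v ⟨hu, hu2⟩ ⟨hv, hv2⟩
    refine ⟨H.mul_mem hu hv, fun e => ?_⟩
    obtain ⟨k, hk, hk2⟩ := hv2 e
    obtain ⟨k', hk', hk2'⟩ := hu2 (fun i => k (e i))
    refine ⟨k' * k, K.mul_mem hk' hk, fun i => ?_⟩
    rw [Perm.mul_apply, hk2, hk2', Perm.mul_apply]
  inv_mem' := by
    rintro u ⟨hu, hu2⟩
    refine ⟨H.inv_mem hu, fun e => ?_⟩
    obtain ⟨k, hk, hk2⟩ := hu2 (fun i => u⁻¹ (e i))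
    refine ⟨k⁻¹, K.inv_mem hk, fun i => ?_⟩
    have e1 := hk2 i
    rw [pap_inv] at e1
    have e2 : k⁻¹ (e i) = u⁻¹ (e i) := by
      conv_lhs => rw [e1]
      exact pinv_ap k _
    exact e2.symm

omit [MulAction (Perm ℕ) B] in
theorem isClosed_LF {K H : Subgroup (Perm B)} (hH : IsClosedSub H) (F : Finset B) :
    IsClosedSub (LF K H F) := by
  classical
  intro g hg
  refine ⟨hH g (fun F' => ?_), fun e => ?_⟩
  · obtain ⟨k, hk, hk2⟩ := hg F'
    exact ⟨k, hk.1, hk2⟩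
  · obtain ⟨u, hu, hu2⟩ := hg (Finset.univ.image e)
    obtain ⟨k, hk, hk2⟩ := hu.2 e
    refine ⟨k, hk, fun i => ?_⟩
    rw [← hk2, hu2 _ (Finset.mem_image_of_mem _ (Finset.mem_univ i))]

omit [MulAction (Perm ℕ) B] in
theorem le_LF {K H : Subgroup (Perm B)} (hKH : K ≤ H) (F : Finset B) : K ≤ LF K H F :=
  fun k hk => ⟨hKH hk, fun _ => ⟨k, hk, fun _ => rfl⟩⟩

omit [MulAction (Perm ℕ) B] in
theorem LF_le {K H : Subgroup (Perm B)} (F : Finset B) : LF K H F ≤ H := fun _ hu => hu.1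

omit [MulAction (Perm ℕ) B] in
theorem LF_ne {K H : Subgroup (Perm B)} {F : Finset B} (h : ¬ Agree K H F) : LF K H F ≠ H := by
  intro he
  apply h
  intro h hh
  rw [← he] at hh
  obtain ⟨k, hk, hk2⟩ := hh.2 (fun i => i)
  exact ⟨k, hk, fun b hb => (hk2 ⟨b, hb⟩).symm⟩

theorem finite_LF (hfs : FinSupp B) (hof : OrbFin B) (H : Subgroup (Perm B)) (F : Finset B) :
    {L : Subgroup (Perm B) | ∃ K, ContainsFx ∅ K ∧ L = LF K H F}.Finite := by
  classical
  obtain ⟨R, hR, hRrep⟩ := finite_orbits hfs hof ∅ (ι := F)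
  let tr : Subgroup (Perm B) → Set ((F → B) × (F → B)) := fun K =>
    {p | p ∈ R ×ˢ R ∧ ∃ k ∈ K, ∀ i, p.2 i = k (p.1 i)}
  let car : Set ((F → B) × (F → B)) → Set (Perm B) := fun T =>
    {h | h ∈ H ∧ ∀ e : F → B, ∃ p ∈ T, ∃ g g' : Perm ℕ, (∀ i, e i = ph B g (p.1 i)) ∧
      ∀ i, h (e i) = ph B g' (p.2 i)}
  have hcar : ∀ K, ContainsFx ∅ K → ((LF K H F : Subgroup (Perm B)) : Set (Perm B)) = car (tr K) := by
    intro K hG
    have hphK : ∀ g : Perm ℕ, ph B g ∈ K :=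
      fun g => hG g (fun _ hi => absurd hi (Finset.notMem_empty _))
    ext h
    constructor
    · rintro ⟨hh, hh2⟩
      refine ⟨hh, fun e => ?_⟩
      obtain ⟨k, hk, hk2⟩ := hh2 e
      obtain ⟨g, _, f, hf, hef⟩ := hRrep e
      obtain ⟨g', _, f', hf', hef'⟩ := hRrep (fun i => h (e i))
      refine ⟨(f, f'), ⟨Set.mk_mem_prod hf hf', (ph B g')⁻¹ * k * ph B g,
        K.mul_mem (K.mul_mem (K.inv_mem (hphK g')) hk) (hphK g), fun i => ?_⟩, g, g',
        fun i => congrFun hef i, fun i => congrFun hef' i⟩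
      rw [Perm.mul_apply, Perm.mul_apply, eq_comm, Perm.inv_eq_iff_eq]
      have e1 : e i = ph B g (f i) := congrFun hef i
      have e2 : h (e i) = ph B g' (f' i) := congrFun hef' i
      dsimp only
      rw [← e1, ← e2, hk2]
    · rintro ⟨hh, hh2⟩
      refine ⟨hh, fun e => ?_⟩
      obtain ⟨p, ⟨_, k, hk, hk2⟩, g, g', h1, h2⟩ := hh2 e
      refine ⟨ph B g' * k * (ph B g)⁻¹, K.mul_mem (K.mul_mem (hphK g') hk) (K.inv_mem (hphK g)),
        fun i => ?_⟩
      rw [h2, h1, hk2, Perm.mul_apply, Perm.mul_apply, ← Perm.mul_apply _ (ph B g),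
        inv_mul_cancel, Perm.one_apply]
  have hfin : ((R ×ˢ R).powerset).Finite := (hR.prod hR).finite_subsets
  have h1 : (car '' (R ×ˢ R).powerset).Finite := hfin.image car
  apply Set.Finite.of_finite_image (f := fun L : Subgroup (Perm B) => (L : Set (Perm B)))
  · apply h1.subset
    rintro _ ⟨L, ⟨K, hG, rfl⟩, rfl⟩
    refine ⟨tr K, fun p hp => hp.1, (hcar K hG).symm⟩
  · exact SetLike.coe_injective.injOn

/-- The core theorem: only finitely many closed subgroups contain the image of `Perm ℕ`. -/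
theorem finite_closed (hfs : FinSupp B) (hof : OrbFin B) :
    {K : Subgroup (Perm B) | IsClosedSub K ∧ ContainsFx ∅ K}.Finite := by
  classical
  let P : Subgroup (Perm B) → Prop := fun H => IsClosedSub H ∧ ContainsFx ∅ H ∧
    ¬ {K : Subgroup (Perm B) | (IsClosedSub K ∧ ContainsFx ∅ K) ∧ K ≤ H}.Finite
  by_contra hinf
  have hP : P ⊤ := by
    refine ⟨fun _ _ => Subgroup.mem_top _, fun _ _ => Subgroup.mem_top _, fun hfin => hinf ?_⟩
    apply hfin.subset
    intro K hK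
    exact ⟨hK, le_top⟩
  have hmin : ∃ H, P H ∧ ∀ H', P H' → H' ≤ H → H' = H := by
    by_contra hcon
    push Not at hcon
    have step : ∀ U : {U // P U}, ∃ V : {U // P U}, V.1 ≤ U.1 ∧ V.1 ≠ U.1 := by
      intro U
      obtain ⟨V, hV, hle, hne⟩ := hcon U.1 U.2
      exact ⟨⟨V, hV⟩, hle, hne⟩
    choose nx hnx using step
    let U : ℕ → {U // P U} := fun n => Nat.rec ⟨⊤, hP⟩ (fun _ V => nx V) n
    have hU : ∀ n, U (n + 1) = nx (U n) := fun n => rfl
    have hanti : Antitone (fun n => (U n).1) := by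
      apply antitone_nat_of_succ_le
      intro n
      rw [hU]
      exact (hnx (U n)).1
    obtain ⟨n, hn⟩ := dcc_closed hfs hof ∅ (fun n => (U n).1) (fun n => (U n).2.1)
      (fun n => (U n).2.2.1) hanti
    have := hn (n + 1) (Nat.le_succ n)
    rw [hU] at this
    exact (hnx (U n)).2 this
  obtain ⟨H, ⟨hHc, hHG, hHinf⟩, hHmin⟩ := hmin
  apply hHinf
  obtain ⟨Fs, hFs⟩ := claimA' hfs hof H hHc hHG
  let Ls : Set (Subgroup (Perm B)) := ⋃ F ∈ (Fs : Set (Finset B)),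
    {L | (∃ K, ContainsFx ∅ K ∧ L = LF K H F)} ∩ {L | IsClosedSub L ∧ ContainsFx ∅ L ∧ L ≤ H ∧ L ≠ H}
  have hLs : Ls.Finite := by
    apply Set.Finite.biUnion (Finset.finite_toSet Fs)
    intro F _
    exact (finite_LF hfs hof H F).inter_of_left _
  have hsub : {K : Subgroup (Perm B) | (IsClosedSub K ∧ ContainsFx ∅ K) ∧ K ≤ H} ⊆
      {H} ∪ ⋃ L ∈ Ls, {K : Subgroup (Perm B) | (IsClosedSub K ∧ ContainsFx ∅ K) ∧ K ≤ L} := by
    rintro K ⟨⟨hKc, hKG⟩, hKH⟩
    by_cases hKe : K = H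
    · exact Or.inl hKe
    · right
      obtain ⟨F, hF, hF2⟩ := hFs K hKc hKG hKH hKe
      rw [Set.mem_iUnion₂]
      refine ⟨LF K H F, ?_, ⟨hKc, hKG⟩, le_LF hKH F⟩
      rw [Set.mem_iUnion₂]
      exact ⟨F, Finset.mem_coe.2 hF, ⟨K, hKG, rfl⟩, isClosed_LF hHc F,
        fun g hg => le_LF hKH F (hKG g hg), LF_le F, LF_ne hF2⟩
  apply Set.Finite.subset _ hsub
  apply (Set.finite_singleton H).union
  apply hLs.biUnion
  intro L hL
  obtain ⟨F, _, _, hLc, hLG, hLH, hLne⟩ := Set.mem_iUnion₂.1 hL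
  by_contra hcon
  exact hLne (hHmin L ⟨hLc, hLG, hcon⟩ hLH)

end Reducts
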