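import Pool.Agent.Helper75.Reducts.Defs

/-!
# Elementary lemmas on the group of permutations of the natural numbers
-/

namespace Reducts

open Equiv

theorem inv_ap (g : Perm ℕ) (i : ℕ) : g⁻¹ (g i) = i := by simp

theorem ap_inv (g : Perm ℕ) (i : ℕ) : g (g⁻¹ i) = i := by simp

theorem Fx.one (S : Finset ℕ) : Fx S 1 := fun _ _ => rfl

theorem Fx.mul {S : Finset ℕ} {g h : Perm ℕ} (hg : Fx S g) (hh : Fx S h) : Fx S (g * h) := by
  intro i hi
  rw [Perm.mul_apply, hh i hi, hg i hi]

theorem Fx.inv {S : Finset ℕ} {g : Perm ℕ} (hg : Fx S g) : Fx S g⁻¹ := by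
  intro i hi
  rw [Perm.inv_eq_iff_eq]
  exact (hg i hi).symm

theorem Fx.mono {S T : Finset ℕ} {g : Perm ℕ} (hg : Fx T g) (h : S ⊆ T) : Fx S g :=
  fun i hi => hg i (h hi)

theorem Fx.conj {S : Finset ℕ} {g : Perm ℕ} (k : Perm ℕ) (hg : Fx (S.image k) g) :
    Fx S (k⁻¹ * g * k) := by
  intro i hi
  rw [Perm.mul_apply, Perm.mul_apply, hg (k i) (Finset.mem_image_of_mem _ hi)]
  simp

theorem fx_swap {S : Finset ℕ} {x y : ℕ} (hx : x ∉ S) (hy : y ∉ S) : Fx S (swap x y) := by
  intro i hi
  apply swap_apply_of_ne_of_ne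
  · rintro rfl; exact hx hi
  · rintro rfl; exact hy hi

/-- L1 : every injective map on a finite set extends to a permutation. -/
theorem exists_perm_ext (T : Finset ℕ) (f : ℕ → ℕ) (hf : Set.InjOn f T) :
    ∃ g : Perm ℕ, ∀ i ∈ T, g i = f i := by
  classical
  let A : Set ℕ := (T : Set ℕ)
  let B : Set ℕ := f '' A
  have hA : A.Finite := T.finite_toSet
  have hB : B.Finite := hA.image f
  have e1 : A ≃ B := Equiv.Set.imageOfInjOn f A hf
  have : Infinite (Aᶜ : Set ℕ) := hA.infinite_compl.to_subtype
  have : Infinite (Bᶜ : Set ℕ) := hB.infinite_compl.to_subtype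
  obtain ⟨e2⟩ : Nonempty ((Aᶜ : Set ℕ) ≃ (Bᶜ : Set ℕ)) := nonempty_equiv_of_countable
  refine ⟨(Equiv.Set.sumCompl A).symm.trans
    (((Equiv.Set.imageOfInjOn f A hf).sumCongr e2).trans (Equiv.Set.sumCompl B)), ?_⟩
  intro i hi
  have hi' : i ∈ A := hi
  simp [Equiv.Set.sumCompl_symm_apply_of_mem hi', Equiv.Set.imageOfInjOn]

/-- `g` fixes `S` and moves `T \ S` away from `W`. -/
def FreshM (S T W : Finset ℕ) (g : Perm ℕ) : Prop := Fx S g ∧ ∀ i ∈ T, i ∉ S → g i ∉ W

theorem FreshM.mono {S T T' W W' : Finset ℕ} {g : Perm ℕ} (h : FreshM S T W g) (hT : T' ⊆ T)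
    (hW : W' ⊆ W) : FreshM S T' W' g :=
  ⟨h.1, fun i hi hiS hW' => h.2 i (hT hi) hiS (hW hW')⟩

/-- L2 : fresh moves exist. -/
theorem exists_fresh (S T W : Finset ℕ) : ∃ g : Perm ℕ, FreshM S T W g := by
  classical
  let K := (S ∪ T ∪ W).sup id + 1
  have hK : ∀ i ∈ S ∪ T ∪ W, i < K := fun i hi => Nat.lt_succ_of_le (Finset.le_sup (f := id) hi)
  obtain ⟨g, hg⟩ := exists_perm_ext (S ∪ T) (fun i => if i ∈ S then i else i + K) (by
    intro i hi j hj hij
    have hi' := hK i (Finset.mem_union_left _ hi)
    have hj' := hK j (Finset.mem_union_left _ hj)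
    by_cases h1 : i ∈ S <;> by_cases h2 : j ∈ S <;> simp only [h1, h2, if_true, if_false] at hij <;>
      omega)
  refine ⟨g, ?_, ?_⟩
  · intro i hi
    rw [hg i (Finset.mem_union_left _ hi)]
    simp [hi]
  · intro i hi hiS hW
    rw [hg i (Finset.mem_union_right _ hi)] at hW
    simp only [hiS, if_false] at hW
    have := hK _ (Finset.mem_union_right _ hW)
    omega

/-- two fresh moves of `T` over `S`, away from `W`, are conjugate over `S ∪ W`. -/
theorem fresh_conj {S T W : Finset ℕ} {g g' : Perm ℕ} (h : FreshM S T W g) (h' : FreshM S T W g') :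
    ∃ k : Perm ℕ, Fx (S ∪ W) k ∧ ∀ i ∈ T, k (g i) = g' i := by
  classical
  obtain ⟨k, hk⟩ := exists_perm_ext (S ∪ W ∪ T.image g)
    (fun j => if j ∈ S ∪ W then j else g' (g⁻¹ j)) (by
      have key : ∀ i ∈ S ∪ W ∪ T.image g, i ∉ S ∪ W → g' (g⁻¹ i) ∉ S ∪ W := by
        intro i hi hi2
        have hi3 : i ∈ T.image g := by
          rcases Finset.mem_union.1 hi with h | h
          · exact absurd h hi2
          · exact h
        obtain ⟨t, ht, rfl⟩ := Finset.mem_image.1 hi3
        rw [inv_ap]
        have htS : t ∉ S := by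
          intro hS
          apply hi2
          rw [h.1 t hS]
          exact Finset.mem_union_left _ hS
        intro hmem
        rcases Finset.mem_union.1 hmem with h4 | h4
        · have : g' (g' t) = g' t := h'.1 _ h4
          have := g'.injective this
          rw [this] at h4
          exact htS h4
        · exact h'.2 t ht htS h4
      intro i hi j hj hij
      by_cases h1 : i ∈ S ∪ W <;> by_cases h2 : j ∈ S ∪ W <;>
        simp only [h1, h2, if_true, if_false] at hij
      · exact hij
      · exact absurd (hij ▸ h1) (key j hj h2)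
      · exact absurd (hij ▸ h2) (key i hi h1)
      · exact g⁻¹.injective (g'.injective hij))
  refine ⟨k, ?_, ?_⟩
  · intro i hi
    rw [hk i (Finset.mem_union_left _ hi)]
    simp only [hi, if_true]
  · intro i hi
    rw [hk (g i) (Finset.mem_union_right _ (Finset.mem_image_of_mem _ hi))]
    by_cases h1 : g i ∈ S ∪ W
    · simp only [h1, if_true]
      have hiS : i ∈ S := by
        by_contra hiS
        rcases Finset.mem_union.1 h1 with h4 | h4
        · have : g (g i) = g i := h.1 _ h4
          have := g.injective this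
          rw [this] at h4
          exact hiS h4
        · exact h.2 i hi hiS h4
      rw [h.1 i hiS, h'.1 i hiS]
    · simp only [h1, if_false, inv_ap]

/-- L3 -/
theorem fx_le_of_swaps (V : Subgroup (Perm ℕ)) (T R : Finset ℕ) (hT : ∀ g, Fx T g → g ∈ V)
    (hsw : ∀ x y, x ∉ R → y ∉ R → swap x y ∈ V) : ∀ g, Fx R g → g ∈ V := by
  classical
  have main : ∀ n : ℕ, ∀ g : Perm ℕ, Fx R g → (T.filter (fun t => g t ≠ t)).card ≤ n → g ∈ V := by
    intro n
    induction n with
    | zero =>
      intro g _ hn
      apply hT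
      intro t ht
      by_contra hne
      have : t ∈ T.filter (fun t => g t ≠ t) := Finset.mem_filter.2 ⟨ht, hne⟩
      rw [Nat.le_zero, Finset.card_eq_zero] at hn
      rw [hn] at this
      simp at this
    | succ n ih =>
      intro g hg hn
      by_cases hex : ∃ t ∈ T, g t ≠ t
      · obtain ⟨t, ht, hne⟩ := hex
        have htR : t ∉ R := fun h => hne (hg t h)
        have hgtR : g t ∉ R := by
          intro h
          have := hg _ h
          exact hne (g.injective this)
        have h1 : swap t (g t) * g ∈ V := by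
          apply ih
          · exact (fx_swap htR hgtR).mul hg
          · have hsub : T.filter (fun s => (swap t (g t) * g) s ≠ s) ⊂ T.filter (fun s => g s ≠ s) := by
              rw [Finset.ssubset_iff_of_subset]
              · refine ⟨t, Finset.mem_filter.2 ⟨ht, hne⟩, ?_⟩
                intro h
                have := (Finset.mem_filter.1 h).2
                apply this
                simp
              · intro s hs
                rw [Finset.mem_filter] at hs ⊢
                refine ⟨hs.1, fun hgs => hs.2 ?_⟩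
                rw [Perm.mul_apply, hgs]
                apply swap_apply_of_ne_of_ne
                · rintro rfl; exact hne hgs
                · intro hs'
                  rw [hs'] at hgs
                  exact hne (g.injective hgs)
            have := Finset.card_lt_card hsub
            omega
        have h2 : g = swap t (g t) * (swap t (g t) * g) := by
          rw [← mul_assoc, swap_mul_self, one_mul]
        rw [h2]
        exact V.mul_mem (hsw _ _ htR hgtR) h1
      · push Not at hex
        exact hT g hex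
  intro g hg
  exact main _ g hg le_rfl

theorem swap_mem_of_swaps {V : Subgroup (Perm ℕ)} {x y z : ℕ} (h1 : swap x z ∈ V) (h2 : swap y z ∈ V)
    (hxy : x ≠ y) (hxz : x ≠ z) (hyz : y ≠ z) : swap x y ∈ V := by
  have : swap x y = swap x z * swap y z * swap x z := by
    ext i
    simp only [Perm.mul_apply, swap_apply_def]
    split_ifs <;> simp_all
  rw [this]
  exact V.mul_mem (V.mul_mem h1 h2) h1

/-- variant of L3 : only swaps between `T \ R` and the complement of `T`. -/
theorem fx_le_of_swaps' (V : Subgroup (Perm ℕ)) (T R : Finset ℕ) 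
    (hT : ∀ g, Fx T g → g ∈ V)
    (hsw : ∀ x ∈ T, x ∉ R → ∀ y, y ∉ T → swap x y ∈ V) : ∀ g, Fx R g → g ∈ V := by
  classical
  apply fx_le_of_swaps V T R hT
  intro x y hx hy
  by_cases hxy : x = y
  · subst hxy
    rw [swap_self]
    exact V.one_mem
  by_cases hxT : x ∈ T
  · by_cases hyT : y ∈ T
    · obtain ⟨z, hz⟩ := Infinite.exists_notMem_finset T
      exact swap_mem_of_swaps (hsw x hxT hx z hz) (hsw y hyT hy z hz) hxy
        (by rintro rfl; exact hz hxT) (by rintro rfl; exact hz hyT)
    · exact hsw x hxT hx y hyT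
  · by_cases hyT : y ∈ T
    · rw [swap_comm]
      exact hsw y hyT hy x hxT
    · exact hT _ (fx_swap hxT hyT)

theorem fx_inter_le (V : Subgroup (Perm ℕ)) (S T : Finset ℕ) (hS : ∀ g, Fx S g → g ∈ V)
    (hT : ∀ g, Fx T g → g ∈ V) : ∀ g, Fx (S ∩ T) g → g ∈ V := by
  classical
  apply fx_le_of_swaps V S (S ∩ T) hS
  have key : ∀ x y, x ∉ S → y ∉ T → swap x y ∈ V := by
    intro x y hx hy
    by_cases hxy : x = y
    · subst hxy
      rw [swap_self]
      exact V.one_mem
    obtain ⟨z, hz⟩ := Infinite.exists_notMem_finset (insert x (insert y (S ∪ T)))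
    simp only [Finset.mem_insert, Finset.mem_union, not_or] at hz
    exact swap_mem_of_swaps (hS _ (fx_swap hx hz.2.2.1)) (hT _ (fx_swap hy hz.2.2.2)) hxy
      (Ne.symm hz.1) (Ne.symm hz.2.1)
  intro x y hx hy
  rw [Finset.mem_inter, not_and_or] at hx hy
  rcases hx with hx | hx <;> rcases hy with hy | hy
  · exact hS _ (fx_swap hx hy)
  · exact key x y hx hy
  · rw [swap_comm]; exact key y x hy hx
  · exact hT _ (fx_swap hx hy)

end Reducts
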