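import Pool.Agent.Helper75.Reducts.Local
import Pool.Agent.Helper75.Reducts.Closed

/-!
# The swap claim and Claim A
-/

namespace Reducts

open Equiv MulAction
open scoped Pointwise

variable {B : Type*} [MulAction (Perm ℕ) B]

/-- `K` and `H` have the same restrictions to `E`. -/
def Agree (K H : Subgroup (Perm B)) (E : Finset B) : Prop :=
  ∀ h ∈ H, ∃ k ∈ K, ∀ b ∈ E, k b = h b

omit [MulAction (Perm ℕ) B] in
theorem smul_coe {K : Subgroup (Perm B)} (k : K) (b : B) : k • b = (k : Perm B) b := rfl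

theorem cont_point (hfs : FinSupp B) (hof : OrbFin B) (K : Subgroup (Perm B)) (hK : IsClosedSub K)
    (hG : ContainsFx ∅ K) (b : B) : (closedCtx hfs hof K hK hG).Cont b :=
  ⟨{b}, fun _ hk => hk b (Finset.mem_singleton_self b)⟩

theorem swap_claim (hfs : FinSupp B) (hof : OrbFin B) (K : Subgroup (Perm B)) (hK : IsClosedSub K)
    (hG : ContainsFx ∅ K) {H : Subgroup (Perm B)} (hKH : K ≤ H) {d : ℕ}
    (hd : ∀ b : B, ((closedCtx hfs hof K hK hG).sp b).card ≤ d) {n : ℕ}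
    (hmin : ∀ E' : Finset B, E'.card < n → Agree K H E') (Z W : Finset B) (hZne : Z.Nonempty)
    (hZ : (d + 2) * Z.card < n) (x y : ℕ)
    (hxW : ∀ b ∈ W, x ∉ (closedCtx hfs hof K hK hG).sp b)
    (hyW : ∀ b ∈ W, y ∉ (closedCtx hfs hof K hK hG).sp b) (h : Perm B) (hh : h ∈ H) :
    ∃ k ∈ K, ∀ b, b ∈ Z ∨ b ∈ W → h (ph B (swap x y) b) = k (h b) := by
  classical
  set X := closedCtx hfs hof K hK hG with hX
  have hc : ∀ b : B, X.Cont b := cont_point hfs hof K hK hG
  set σ : K := X.φ (swap x y) with hσ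
  have hσW : ∀ b ∈ W, σ • b = b := fun b hb => (Ctx.sup_sp (hc b)).smul_eq (fx_swap (hxW b hb) (hyW b hb))
  have hsb : ∀ l : B, ∃ W0 ⊆ W, W0.card ≤ d ∧ ∀ b ∈ W, X.Ind (X.NF W0) l (stabilizer K b) :=
    fun l => Ctx.small_base hc (hc l) (fun m => hd _) W
  choose Wl hWl1 hWl2 hWl3 using hsb
  set w0 := Z.biUnion Wl with hw0
  have hw0W : w0 ⊆ W := Finset.biUnion_subset.2 (fun l _ => hWl1 l)
  have hw0card : w0.card ≤ Z.card * d := Finset.card_biUnion_le_card_mul _ _ _ (fun l _ => hWl2 l)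
  have hN0 : X.Cn (X.NF w0) := Ctx.cn_NF hc w0
  -- (1)
  have h1 : ∀ l ∈ Z, ∀ b ∈ W, X.Ind (X.NF w0) l (stabilizer K b) := by
    intro l hl b hb
    have ha : X.Ind (X.NF (Wl l)) l (fx K (insert b w0)) := by
      apply Ctx.ind_fx hc (Ctx.cn_NF hc _) (hc l)
      intro b' hb'
      rcases Finset.mem_insert.1 hb' with rfl | hb'
      · exact hWl3 l _ hb
      · exact hWl3 l _ (hw0W hb')
    rw [fx_insert, Ctx.ind_inf (Ctx.cn_NF hc _) (Ctx.opn_fx hc _) (hc b) (hc l),
      Ctx.ext_NF hc _ (Ctx.opn_fx hc _)] at ha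
    have hsub : Wl l ⊆ w0 := Finset.subset_biUnion_of_mem Wl hl
    rw [inf_eq_right.2 (fx_anti hsub)] at ha
    exact ha.2
  -- (2)
  have h2 : σ ∈ X.NF w0 := by
    have hhas : X.Has (w0.biUnion (fun b => X.sp b)) (fx K w0) := by
      intro g hg
      rw [mem_fx]
      intro b hb
      exact (Ctx.sup_sp (hc b)).smul_eq (hg.mono (Finset.subset_biUnion_of_mem (fun b => X.sp b) hb))
    apply Ctx.has_conn (Ctx.opn_fx hc _) hhas
    apply fx_swap
    · intro hmem
      obtain ⟨b, hb, hb2⟩ := Finset.mem_biUnion.1 hmem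
      exact hxW b (hw0W hb) hb2
    · intro hmem
      obtain ⟨b, hb, hb2⟩ := Finset.mem_biUnion.1 hmem
      exact hyW b (hw0W hb) hb2
  -- (3)
  have h3 : ∀ l ∈ Z, ∀ b ∈ W, X.Ind (X.NF w0) (σ • l) (stabilizer K b) := by
    intro l hl b hb
    have := (Ctx.ind_smul (C := stabilizer K b) hN0 (hc l) σ).2 (h1 l hl b hb)
    rwa [cj_of_mem h2, ← stab_smul, hσW b hb] at this
  -- (4)
  have hZpos : 1 ≤ Z.card := Finset.card_pos.2 hZne
  have hE0 : (Z ∪ Z.image (fun b => σ • b) ∪ w0).card < n := by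
    have e1 := Finset.card_union_le (Z ∪ Z.image (fun b => σ • b)) w0
    have e2 := Finset.card_union_le Z (Z.image (fun b => σ • b))
    have e3 : (Z.image (fun b => σ • b)).card ≤ Z.card := Finset.card_image_le
    nlinarith
  obtain ⟨k0, hk0, hk0E⟩ := hmin _ hE0 h hh
  set h' := k0⁻¹ * h with hh'
  have hh'H : h' ∈ H := H.mul_mem (H.inv_mem (hKH hk0)) hh
  have hfix : ∀ b ∈ Z ∪ Z.image (fun b => σ • b) ∪ w0, h' b = b := by
    intro b hb
    rw [hh', Perm.mul_apply, Perm.inv_eq_iff_eq]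
    exact (hk0E b hb).symm
  -- (5)
  have h5 : ∀ l ∈ Z ∪ Z.image (fun b => σ • b), ∀ b ∈ W,
      X.Ind (X.NF w0) l (stabilizer K b) → X.Ind (X.NF w0) l (stabilizer K (h' b)) := by
    intro l hl b hb hind
    have hcard : (insert l (insert b w0)).card < n := by
      have e1 := Finset.card_insert_le l (insert b w0)
      have e2 := Finset.card_insert_le b w0
      nlinarith
    obtain ⟨k, hk, hkE⟩ := hmin _ hcard h' hh'H
    have hkl : (⟨k, hk⟩ : K) • l = l := by
      rw [smul_coe]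
      change k l = l
      rw [hkE l (Finset.mem_insert_self _ _)]
      exact hfix l (Finset.mem_union_left _ hl)
    have hkb : (⟨k, hk⟩ : K) • b = h' b := by
      rw [smul_coe]
      exact hkE b (Finset.mem_insert_of_mem (Finset.mem_insert_self _ _))
    have hkw : (⟨k, hk⟩ : K) ∈ fx K w0 := by
      rw [mem_fx]
      intro b' hb'
      rw [smul_coe]
      change k b' = b'
      rw [hkE b' (Finset.mem_insert_of_mem (Finset.mem_insert_of_mem hb'))]
      exact hfix b' (Finset.mem_union_right _ hb')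
    have := (Ctx.ind_smul (C := stabilizer K b) hN0 (hc l) ⟨k, hk⟩).2 hind
    unfold Ctx.NF at this
    rw [Ctx.conn_normal (Ctx.opn_fx hc w0) hkw, hkl, ← stab_smul, hkb] at this
    exact this
  -- (6)
  let Ws := W.image h'
  let t : Z → B := fun b => (b : B)
  have j1 : X.Ind (X.NF w0) t (fx K Ws) := by
    apply Ctx.joint hc hN0
    intro i b' hb'
    obtain ⟨b, hb, rfl⟩ := Finset.mem_image.1 hb'
    exact h5 _ (Finset.mem_union_left _ i.2) b hb (h1 _ i.2 b hb)
  have j2 : X.Ind (X.NF w0) (σ • t) (fx K Ws) := by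
    apply Ctx.joint hc hN0
    intro i b' hb'
    obtain ⟨b, hb, rfl⟩ := Finset.mem_image.1 hb'
    exact h5 _ (Finset.mem_union_right _ (Finset.mem_image_of_mem _ i.2)) b hb (h3 _ i.2 b hb)
  have ht : X.Cont t := by
    unfold Ctx.Cont
    rw [stab_incl]
    exact Ctx.opn_fx hc _
  obtain ⟨k', hk', hk't⟩ := Ctx.ind_stat hN0 (Ctx.opn_fx hc Ws) ht j1 j2 (smul_mem_orb h2 t)
  have hk'W : ∀ b ∈ Ws, (k' : Perm B) b = b := mem_fx.1 (Subgroup.mem_inf.1 hk').2
  have hk'Z : ∀ b ∈ Z, (k' : Perm B) b = ph B (swap x y) b := by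
    intro b hb
    have := congrFun hk't ⟨b, hb⟩
    exact this
  refine ⟨k0 * k' * k0⁻¹, K.mul_mem (K.mul_mem hk0 k'.2) (K.inv_mem hk0), ?_⟩
  have hconv : ∀ b, k0⁻¹ (h b) = h' b := fun b => rfl
  have hconv2 : ∀ b, h b = k0 (h' b) := by
    intro b
    rw [← hconv, ← Perm.mul_apply, mul_inv_cancel, Perm.one_apply]
  rintro b (hb | hb)
  · have hbE : b ∈ Z ∪ Z.image (fun b => σ • b) ∪ w0 :=
      Finset.mem_union_left _ (Finset.mem_union_left _ hb)
    have hσbE : ph B (swap x y) b ∈ Z ∪ Z.image (fun b => σ • b) ∪ w0 :=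
      Finset.mem_union_left _ (Finset.mem_union_right _ (Finset.mem_image_of_mem _ hb))
    rw [Perm.mul_apply, Perm.mul_apply, hconv, hfix b hbE, hk'Z b hb, hconv2, hfix _ hσbE]
  · have hσb : ph B (swap x y) b = b := hσW b hb
    rw [Perm.mul_apply, Perm.mul_apply, hconv, hk'W _ (Finset.mem_image_of_mem _ hb), hσb, hconv2]

end Reducts
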