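import Pool.Agent.Helper42.Reducts.OneBased

/-!
# Triviality of independence
-/

namespace Reducts

open Equiv MulAction
open scoped Pointwise

namespace Ctx

variable {M : Type*} [Group M] {X : Ctx M} {Ω : Type*} [MulAction M Ω] {Ω' : Type*}
  [MulAction M Ω'] {Ω'' : Type*} [MulAction M Ω'']

/-- the generic type is its own canonical base. -/
theorem gen_base {N K : Subgroup M} (hN : X.Cn N) (hK : X.Cn K) (hKN : K ≤ N) {b : Ω}
    (hb : X.Cont b) : X.gen (X.ext N (stabilizer M (X.gen K b))) b = X.gen K b := by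
  have hf := cont_gen hK hb
  have hg := isGen_gen hK hb
  have hle : K ≤ X.ext N (stabilizer M (X.gen K b)) :=
    hK.le_conn (X.opn_inf hN.opn hf) (le_inf hKN hg.inv)
  apply gen_eq (cn_ext hN.opn hf) hb
  refine ⟨hg.ult, (ext_le hN.opn hf).trans inf_le_right, ?_⟩
  exact hg.ult.mono _ hg.mem _ (cont_orb (cn_ext hN.opn hf).opn b) (orb_mono hle b)

/-- independence over the canonical base. -/
theorem ind_base {N K C : Subgroup M} (hN : X.Cn N) (hK : X.Cn K) (hKN : K ≤ N) (hKC : K ≤ C)
    (hC : X.opn C) {b : Ω} (hb : X.Cont b) :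
    X.Ind (X.ext N (stabilizer M (X.gen K b))) b C := by
  have hf := cont_gen hK hb
  have hg := isGen_gen hK hb
  have hle : K ≤ X.ext N (stabilizer M (X.gen K b)) :=
    hK.le_conn (X.opn_inf hN.opn hf) (le_inf hKN hg.inv)
  unfold Ind
  rw [gen_base hN hK hKN hb]
  exact hg.ult.mono _ hg.mem _ (cont_orb (X.opn_inf (cn_ext hN.opn hf).opn hC) b)
    (orb_mono (le_inf hle hKC) b)

/-- replacing `b` by the canonical base of its type over `K`. -/
theorem acl_step {N K : Subgroup M} (hN : X.Cn N) (hK : X.Cn K) (hKN : K ≤ N) {b : Ω} {c : Ω'}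
    {e : Ω''} (hb : X.Cont b) (hc : X.Cont c) (he : X.Cont e) (hKc : K ≤ stabilizer M c)
    (hKe : K ≤ stabilizer M e)
    (h : X.ext N (stabilizer M b ⊓ stabilizer M c) ≤ stabilizer M e) :
    X.ext N (stabilizer M (X.gen K b) ⊓ stabilizer M c) ≤ stabilizer M e := by
  have hf := cont_gen hK hb
  set f := X.gen K b with hfdef
  have hNf : X.Cn (X.ext N (stabilizer M f)) := cn_ext hN.opn hf
  have h1 : X.Ind (X.ext N (stabilizer M f)) b (stabilizer M c ⊓ stabilizer M e) :=
    ind_base hN hK hKN (le_inf hKc hKe) (X.opn_inf hc he) hb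
  have h2 := ((ind_inf hNf hc he hb).1 h1).2
  rw [ext_ext hN.opn hf hc] at h2
  have hL : X.Cn (X.ext N (stabilizer M f ⊓ stabilizer M c)) := cn_ext hN.opn (X.opn_inf hf hc)
  have h3 := ind_symm hL hb he h2
  apply le_of_ind hL hb he h3
  refine le_trans ?_ h
  apply (cn_ext hL.opn hb).le_conn (X.opn_inf hN.opn (X.opn_inf hb hc))
  have h4 := ext_le (X := X) hL.opn hb
  have h5 := ext_le (X := X) hN.opn (X.opn_inf hf hc)
  refine le_inf ((h4.trans inf_le_left).trans (h5.trans inf_le_left)) (le_inf (h4.trans inf_le_right) ?_)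
  exact (h4.trans inf_le_left).trans (h5.trans (inf_le_right.trans inf_le_right))

/-- conjugating an algebraicity statement. -/
theorem ext_le_smul {N : Subgroup M} (hN : X.opn N) {n : M} (hn : n ∈ N) {b : Ω} {c : Ω'}
    {e : Ω''} (hb : X.Cont b) (hc : X.Cont c)
    (h : X.ext N (stabilizer M b ⊓ stabilizer M c) ≤ stabilizer M e) :
    X.ext N (stabilizer M (n • b) ⊓ stabilizer M (n • c)) ≤ stabilizer M (n • e) := by
  have h1 : X.ext N (stabilizer M (n • b) ⊓ stabilizer M (n • c)) =
      cj n (X.ext N (stabilizer M b ⊓ stabilizer M c)) := by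
    unfold ext
    rw [← conn_cj (X.opn_inf hN (X.opn_inf hb hc)), cj_inf, cj_inf, cj_of_mem hn, stab_smul,
      stab_smul]
  rw [h1, stab_smul]
  exact cj_mono h

/-- supports of algebraic elements. -/
theorem sp_subset_of_ext_le {N : Subgroup M} (hN : X.opn N) {S : Finset ℕ} (hS : X.Has S N)
    {b : Ω} {c : Ω'} {e : Ω''} (hb : X.Cont b) (hc : X.Cont c) (he : X.Cont e)
    (h : X.ext N (stabilizer M b ⊓ stabilizer M c) ≤ stabilizer M e) :
    X.sp e ⊆ S ∪ (X.sp b ∪ X.sp c) := by
  apply sp_subset he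
  have h1 : X.Has (S ∪ (X.sp b ∪ X.sp c)) (N ⊓ (stabilizer M b ⊓ stabilizer M c)) :=
    (hS.mono Finset.subset_union_left le_rfl).inf
      (((has_supp hb).mono (Finset.subset_union_left.trans Finset.subset_union_right) le_rfl).inf
        ((has_supp hc).mono (Finset.subset_union_right.trans Finset.subset_union_right) le_rfl))
  exact (has_conn (X.opn_inf hN (X.opn_inf hb hc)) h1).mono subset_rfl h

/-- one step of the growth of supports. -/
theorem grow {N : Subgroup M} (hN : X.Cn N) {S : Finset ℕ} (hS : X.Has S N) {b : Ω} {c : Ω'}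
    {e : Ω''} (hb : X.Cont b) (hc : X.Cont c) (he : X.Cont e)
    (P1 : X.ext N (stabilizer M c ⊓ stabilizer M e) ≤ stabilizer M b)
    (P2 : X.ext N (stabilizer M b ⊓ stabilizer M e) ≤ stabilizer M c)
    (P3 : X.ext N (stabilizer M b ⊓ stabilizer M c) ≤ stabilizer M e)
    (Q : X.Ind N e (stabilizer M b)) (hR : ¬ N ≤ stabilizer M e) {b' : Ω} (hb' : b' ∈ orb N b) :
    ∃ c' ∈ orb N c, (X.sp b' \ S).card < (X.sp c' \ S).card := by
  classical
  obtain ⟨e', he', hq, hd⟩ := exists_good hN hS he (X.sp b')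
  have hmem := (ind_iff hN hS he hb he' hq hb' hd).1 Q
  obtain ⟨n, hn, hnn⟩ := hmem
  rw [Prod.smul_mk, Prod.mk.injEq] at hnn
  obtain ⟨rfl, rfl⟩ := hnn
  refine ⟨n • c, smul_mem_orb hn c, ?_⟩
  have R1 := sp_subset_of_ext_le hN.opn hS (hc.smul n) (he.smul n) (hb.smul n)
    (ext_le_smul hN.opn hn hc he P1)
  have R3 := sp_subset_of_ext_le hN.opn hS (hb.smul n) (hc.smul n) (he.smul n)
    (ext_le_smul hN.opn hn hb hc P3)
  -- the support of `n • e` is not contained in `S`
  have hne : ∃ t ∈ X.sp (n • e), t ∉ S := by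
    by_contra hcon
    push Not at hcon
    have hsup : X.Sup S (n • e) := (sup_sp (he.smul n)).mono hcon
    have hinv := (isGen_gen hN he).inv
    rw [hq] at hinv
    have h1 := le_stab_of_sup (he.smul n) hsup hinv
    apply hR
    intro m hm
    have h2 : n * m * n⁻¹ ∈ N := N.mul_mem (N.mul_mem hn hm) (N.inv_mem hn)
    have h3 := h1 h2
    rw [mem_stabilizer_iff, smul_smul] at h3
    rw [mem_stabilizer_iff]
    have h4 : (n * m * n⁻¹ * n) • e = n • m • e := by
      rw [smul_smul]
      congr 1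
      simp [mul_assoc]
    rw [h4] at h3
    exact MulAction.injective n h3
  obtain ⟨t, ht, htS⟩ := hne
  apply Finset.card_lt_card
  rw [Finset.ssubset_iff_of_subset]
  · refine ⟨t, Finset.mem_sdiff.2 ⟨?_, htS⟩, ?_⟩
    · rcases Finset.mem_union.1 (R3 ht) with h | h
      · exact absurd h htS
      · rcases Finset.mem_union.1 h with h | h
        · exact absurd h (hd t ht htS)
        · exact h
    · intro h
      exact hd t ht htS (Finset.mem_sdiff.1 h).1
  · intro i hi
    obtain ⟨hi1, hi2⟩ := Finset.mem_sdiff.1 hi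
    refine Finset.mem_sdiff.2 ⟨?_, hi2⟩
    rcases Finset.mem_union.1 (R1 hi1) with h | h
    · exact absurd h hi2
    · rcases Finset.mem_union.1 h with h | h
      · exact h
      · exact absurd hi1 (hd i h hi2)

/-- no nontrivial triangle. -/
theorem no_triangle {N : Subgroup M} (hN : X.Cn N) {b : Ω} {c : Ω'}
    {e : Ω''} (hb : X.Cont b) (hc : X.Cont c) (he : X.Cont e)
    (P1 : X.ext N (stabilizer M c ⊓ stabilizer M e) ≤ stabilizer M b)
    (P2 : X.ext N (stabilizer M b ⊓ stabilizer M e) ≤ stabilizer M c)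
    (P3 : X.ext N (stabilizer M b ⊓ stabilizer M c) ≤ stabilizer M e)
    (Q1 : X.Ind N e (stabilizer M b)) (Q2 : X.Ind N e (stabilizer M c)) :
    N ≤ stabilizer M e := by
  classical
  by_contra hR
  have hS := has_supp hN.opn
  set S := X.supp N with hSdef
  have P3' : X.ext N (stabilizer M c ⊓ stabilizer M b) ≤ stabilizer M e := by
    rwa [inf_comm]
  have key : ∀ k : ℕ, ∃ b' ∈ orb N b, k ≤ (X.sp b' \ S).card := by
    intro k
    induction k with
    | zero => exact ⟨b, mem_orb_self N b, Nat.zero_le _⟩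
    | succ k ih =>
      obtain ⟨b', hb', hk⟩ := ih
      obtain ⟨c', hc', h1⟩ := grow hN hS hb hc he P1 P2 P3 Q1 hR hb'
      obtain ⟨b'', hb'', h2⟩ := grow hN hS hc hb he P2 P1 P3' Q2 hR hc'
      exact ⟨b'', hb'', by omega⟩
  obtain ⟨K, hK⟩ := exists_bound hb
  obtain ⟨b', ⟨n, hn, rfl⟩, h1⟩ := key (K + 1)
  have h2 := hK n
  have h3 : (X.sp (n • b) \ S).card ≤ (X.sp (n • b)).card :=
    Finset.card_le_card Finset.sdiff_subset
  omega

/-- J8 : triviality. -/
theorem ind_triv {N B C : Subgroup M} (hN : X.Cn N) (hB : X.opn B) (hC : X.opn C) {a : Ω}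
    (ha : X.Cont a) (h : X.Ind N a B) (h' : X.Ind N a C) : X.Ind N a (B ⊓ C) := by
  -- the coset elements with stabilisers `B` and `C`
  have sB : stabilizer M ((1 : M) : M ⧸ B) = B := MulAction.stabilizer_quotient B
  have sC : stabilizer M ((1 : M) : M ⧸ C) = C := MulAction.stabilizer_quotient C
  set b : M ⧸ B := ((1 : M) : M ⧸ B) with hbdef
  set c : M ⧸ C := ((1 : M) : M ⧸ C) with hcdef
  have hb : X.Cont b := by
    unfold Cont
    rw [sB]
    exact hB
  have hc : X.Cont c := by
    unfold Cont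
    rw [sC]
    exact hC
  have hBC : X.opn (B ⊓ C) := X.opn_inf hB hC
  -- the canonical base
  set D := X.ext N (B ⊓ C) with hD
  have hDc : X.Cn D := cn_ext hN.opn hBC
  have hDle : D ≤ N ⊓ (B ⊓ C) := ext_le hN.opn hBC
  have hDN : D ≤ N := hDle.trans inf_le_left
  have hDB : D ≤ B := hDle.trans (inf_le_right.trans inf_le_left)
  have hDC : D ≤ C := hDle.trans (inf_le_right.trans inf_le_right)
  have he := cont_gen hDc ha
  have hge := isGen_gen hDc ha
  have hob := one_based hDc ha
  have hbase := ind_base hN hDc hDN (le_inf hDB hDC) hBC ha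
  set e := X.gen D a with hedef
  -- enough: `N` fixes `e`
  suffices hmain : N ≤ stabilizer M e by
    have h1 : X.ext N (stabilizer M e) = N := by
      unfold ext
      rw [inf_eq_left.2 hmain]
      exact hN.2
    rwa [h1] at hbase
  -- independence of `e` from `b` and from `c`
  have hacl : ∀ {V : Subgroup M}, X.opn V → X.Ind N a V → X.Ind N e V := by
    intro V hV hind
    have sV : stabilizer M ((1 : M) : M ⧸ V) = V := MulAction.stabilizer_quotient V
    have hv : X.Cont ((1 : M) : M ⧸ V) := by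
      unfold Cont
      rw [sV]
      exact hV
    rw [← sV] at hind ⊢
    have h1 := ind_symm hN ha hv hind
    have h2 : X.Ind N ((1 : M) : M ⧸ V) (stabilizer M e) := by
      apply ind_mono hN ha he hv h1
      refine le_trans ?_ hob
      exact conn_mono (X.opn_inf hN.opn ha) inf_le_right
    exact ind_symm hN hv he h2
  have Qb : X.Ind N e (stabilizer M b) := by
    rw [sB]
    exact hacl hB h
  have Qc : X.Ind N e (stabilizer M c) := by
    rw [sC]
    exact hacl hC h'
  have P3 : X.ext N (stabilizer M b ⊓ stabilizer M c) ≤ stabilizer M e := by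
    rw [sB, sC]
    exact hge.inv
  -- first replacement
  have hce := X.opn_inf hc he
  set K1 := X.ext N (stabilizer M c ⊓ stabilizer M e) with hK1
  have hK1c : X.Cn K1 := cn_ext hN.opn hce
  have hK1le : K1 ≤ N ⊓ (stabilizer M c ⊓ stabilizer M e) := ext_le hN.opn hce
  have hb1 := cont_gen hK1c hb
  have hg1 := isGen_gen hK1c hb
  have hob1 := one_based hK1c hb
  have P3a : X.ext N (stabilizer M (X.gen K1 b) ⊓ stabilizer M c) ≤ stabilizer M e :=
    acl_step hN hK1c (hK1le.trans inf_le_left) hb hc he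
      (hK1le.trans (inf_le_right.trans inf_le_left))
      (hK1le.trans (inf_le_right.trans inf_le_right)) P3
  set b1 := X.gen K1 b with hb1def
  have P1a : X.ext N (stabilizer M c ⊓ stabilizer M e) ≤ stabilizer M b1 := hg1.inv
  have Qb1 : X.Ind N e (stabilizer M b1) := by
    apply ind_mono hN hb hb1 he Qb
    exact (conn_mono (X.opn_inf hN.opn hb) inf_le_right).trans hob1
  -- second replacement
  have hbe := X.opn_inf hb1 he
  set K2 := X.ext N (stabilizer M b1 ⊓ stabilizer M e) with hK2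
  have hK2c : X.Cn K2 := cn_ext hN.opn hbe
  have hK2le : K2 ≤ N ⊓ (stabilizer M b1 ⊓ stabilizer M e) := ext_le hN.opn hbe
  have hc1 := cont_gen hK2c hc
  have hg2 := isGen_gen hK2c hc
  have hob2 := one_based hK2c hc
  have hK2N : K2 ≤ N := hK2le.trans inf_le_left
  have hK2b : K2 ≤ stabilizer M b1 := hK2le.trans (inf_le_right.trans inf_le_left)
  have hK2e : K2 ≤ stabilizer M e := hK2le.trans (inf_le_right.trans inf_le_right)
  have P3b : X.ext N (stabilizer M (X.gen K2 c) ⊓ stabilizer M b1) ≤ stabilizer M e :=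
    acl_step hN hK2c hK2N hc hb1 he hK2b hK2e (by rwa [inf_comm] at P3a)
  have P1b : X.ext N (stabilizer M (X.gen K2 c) ⊓ stabilizer M e) ≤ stabilizer M b1 :=
    acl_step hN hK2c hK2N hc he hb1 hK2e hK2b P1a
  set c1 := X.gen K2 c with hc1def
  have P2b : X.ext N (stabilizer M b1 ⊓ stabilizer M e) ≤ stabilizer M c1 := hg2.inv
  have Qc1 : X.Ind N e (stabilizer M c1) := by
    apply ind_mono hN hc hc1 he Qc
    exact (conn_mono (X.opn_inf hN.opn hc) inf_le_right).trans hob2
  exact no_triangle hN hb1 hc1 he P1b P2b (by rwa [inf_comm] at P3b) Qb1 Qc1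

end Ctx

end Reducts
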