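import Pool.Agent.Helper75.Reducts.Elem

/-!
# Types: ultrafilters of continuous subsets
-/

namespace Reducts

open Equiv MulAction
open scoped Pointwise

namespace Ctx

variable {M : Type*} [Group M] (X : Ctx M) {Ω : Type*} [MulAction M Ω] {Ω' : Type*}
  [MulAction M Ω']

/-- ultrafilters of the Boolean algebra of continuous subsets of `Ω`. -/
structure IsUlt (U : Set (Set Ω)) : Prop where
  cont : ∀ P ∈ U, X.Cont P
  univ : Set.univ ∈ U
  inter : ∀ P ∈ U, ∀ Q ∈ U, P ∩ Q ∈ U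
  mono : ∀ P ∈ U, ∀ Q, X.Cont Q → P ⊆ Q → Q ∈ U
  empty : ∅ ∉ U
  compl : ∀ P, X.Cont P → P ∈ U ∨ Pᶜ ∈ U

/-- the type of a fresh copy of `a` over `S`. -/
def q (a : Ω) (S : Finset ℕ) : Set (Set Ω) :=
  {P | X.Cont P ∧ ∃ g, FreshM S (X.sp a) (X.sp P) g ∧ X.φ g • a ∈ P}

/-- `U` is an `N`-invariant ultrafilter containing the orbit `N a`. -/
structure IsGen (N : Subgroup M) (a : Ω) (U : Set (Set Ω)) : Prop where
  ult : X.IsUlt U
  inv : N ≤ stabilizer M U
  mem : orb N a ∈ U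

/-- the generic type of `a` over `N`. -/
noncomputable def gen (N : Subgroup M) (a : Ω) : Set (Set Ω) := by
  classical
  exact if h : ∃ U, X.IsGen N a U then h.choose else ∅

/-- `a` is independent from `C` over `N`. -/
def Ind (N : Subgroup M) (a : Ω) (C : Subgroup M) : Prop := orb (N ⊓ C) a ∈ X.gen N a

/-- the connected group of the extension of the base `N` by `C`. -/
def ext (N C : Subgroup M) : Subgroup M := X.conn (N ⊓ C)

variable {X}

theorem IsUlt.not_mem_compl {U : Set (Set Ω)} (h : X.IsUlt U) {P : Set Ω} (hP : P ∈ U) :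
    Pᶜ ∉ U := by
  intro h'
  have := h.inter _ hP _ h'
  rw [Set.inter_compl_self] at this
  exact h.empty this

theorem IsUlt.compl_mem {U : Set (Set Ω)} (h : X.IsUlt U) {P : Set Ω} (hc : X.Cont P)
    (hP : P ∉ U) : Pᶜ ∈ U := (h.compl P hc).resolve_left hP

theorem IsUlt.eq_of_subset {U V : Set (Set Ω)} (h : X.IsUlt U) (h' : X.IsUlt V) (hle : U ⊆ V) :
    U = V := by
  apply Set.Subset.antisymm hle
  intro P hP
  by_contra hPU
  exact h'.not_mem_compl hP (hle (h.compl_mem (h'.cont P hP) hPU))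

theorem IsUlt.union {U : Set (Set Ω)} (h : X.IsUlt U) {P Q : Set Ω} (hP : X.Cont P)
    (hQ : X.Cont Q) (hu : P ∪ Q ∈ U) : P ∈ U ∨ Q ∈ U := by
  by_contra hcon
  push Not at hcon
  have h1 := h.compl_mem hP hcon.1
  have h2 := h.compl_mem hQ hcon.2
  have h3 := h.inter _ (h.inter _ h1 _ h2) _ hu
  have : Pᶜ ∩ Qᶜ ∩ (P ∪ Q) = ∅ := by
    ext x; simp
  rw [this] at h3
  exact h.empty h3

theorem IsUlt.nonempty {U : Set (Set Ω)} (h : X.IsUlt U) {P : Set Ω} (hP : P ∈ U) :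
    P.Nonempty := by
  rw [Set.nonempty_iff_ne_empty]
  rintro rfl
  exact h.empty hP

theorem IsUlt.smul {U : Set (Set Ω)} (h : X.IsUlt U) (m : M) : X.IsUlt (m • U) := by
  constructor
  · intro P hP
    rw [Set.mem_smul_set_iff_inv_smul_mem] at hP
    exact cont_smul_iff.1 (h.cont _ hP)
  · rw [Set.mem_smul_set_iff_inv_smul_mem, Set.smul_set_univ]
    exact h.univ
  · intro P hP Q hQ
    rw [Set.mem_smul_set_iff_inv_smul_mem] at hP hQ ⊢
    rw [Set.smul_set_inter]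
    exact h.inter _ hP _ hQ
  · intro P hP Q hQ hPQ
    rw [Set.mem_smul_set_iff_inv_smul_mem] at hP ⊢
    exact h.mono _ hP _ (hQ.smul _) (Set.smul_set_mono hPQ)
  · rw [Set.mem_smul_set_iff_inv_smul_mem, Set.smul_set_empty]
    exact h.empty
  · intro P hP
    rw [Set.mem_smul_set_iff_inv_smul_mem, Set.mem_smul_set_iff_inv_smul_mem,
      Set.smul_set_compl]
    exact h.compl _ (hP.smul _)

/-- membership in an invariant family. -/
theorem mem_iff_smul_mem {U : Set (Set Ω)} {m : M} (h : m ∈ stabilizer M U) (P : Set Ω) :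
    m • P ∈ U ↔ P ∈ U := by
  rw [mem_stabilizer_iff] at h
  conv_lhs => rw [← h]
  exact Set.smul_mem_smul_set_iff

theorem mem_q_of {a : Ω} (ha : X.Cont a) {S : Finset ℕ} {P : Set Ω} {W : Finset ℕ}
    (hW : X.Sup W P) {g g' : Perm ℕ} (hg : FreshM S (X.sp a) W g) (hg' : FreshM S (X.sp a) W g')
    (h : X.φ g • a ∈ P) : X.φ g' • a ∈ P := by
  obtain ⟨k, hk, hk2⟩ := fresh_conj hg hg'
  have h1 : X.φ g' • a = X.φ k • X.φ g • a := by
    rw [smul_smul, ← map_mul]
    apply smul_eq_of_agree ha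
    intro i hi
    rw [Perm.mul_apply, hk2 i hi]
  rw [h1]
  have h2 : X.φ k • P = P := hW.smul_eq (hk.mono Finset.subset_union_right)
  rw [← h2]
  exact Set.smul_mem_smul_set h

theorem mem_q {a : Ω} (ha : X.Cont a) {S : Finset ℕ} {P : Set Ω} (hP : X.Cont P) {g : Perm ℕ}
    (hg : FreshM S (X.sp a) (X.sp P) g) : P ∈ X.q a S ↔ X.φ g • a ∈ P := by
  constructor
  · rintro ⟨_, g', hg', h⟩
    exact mem_q_of ha (sup_sp hP) hg' hg h
  · intro h
    exact ⟨hP, g, hg, h⟩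

theorem mem_q_self {a : Ω} (ha : X.Cont a) {S : Finset ℕ} {P : Set Ω} (hP : X.Cont P)
    (hd : ∀ i ∈ X.sp a, i ∉ S → i ∉ X.sp P) : P ∈ X.q a S ↔ a ∈ P := by
  rw [mem_q ha hP (g := 1) ⟨Fx.one S, hd⟩, map_one, one_smul]

/-- a version with an arbitrary finite set of sets. -/
theorem isUlt_q {a : Ω} (ha : X.Cont a) (S : Finset ℕ) : X.IsUlt (X.q a S) := by
  constructor
  · intro P hP; exact hP.1
  · obtain ⟨g, hg⟩ := exists_fresh S (X.sp a) (X.sp (Set.univ : Set Ω))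
    exact ⟨cont_univ, g, hg, Set.mem_univ _⟩
  · intro P hP Q hQ
    obtain ⟨g, hg⟩ := exists_fresh S (X.sp a) (X.sp P ∪ X.sp Q)
    have h1 := (mem_q ha hP.1 (hg.mono subset_rfl Finset.subset_union_left)).1 hP
    have h2 := (mem_q ha hQ.1 (hg.mono subset_rfl Finset.subset_union_right)).1 hQ
    exact ⟨hP.1.inter hQ.1, g, hg.mono subset_rfl (sp_inter_subset hP.1 hQ.1), h1, h2⟩
  · intro P hP Q hQ hPQ
    obtain ⟨g, hg⟩ := exists_fresh S (X.sp a) (X.sp P ∪ X.sp Q)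
    have h1 := (mem_q ha hP.1 (hg.mono subset_rfl Finset.subset_union_left)).1 hP
    exact ⟨hQ, g, hg.mono subset_rfl Finset.subset_union_right, hPQ h1⟩
  · rintro ⟨_, g, _, h⟩
    exact h
  · intro P hP
    obtain ⟨g, hg⟩ := exists_fresh S (X.sp a) (X.sp P)
    by_cases h : X.φ g • a ∈ P
    · exact Or.inl ⟨hP, g, hg, h⟩
    · exact Or.inr ⟨hP.compl, g, by rwa [sp_compl], h⟩

theorem q_smul {a : Ω} (ha : X.Cont a) {S : Finset ℕ} {g : Perm ℕ} (hg : Fx S g) :
    X.q (X.φ g • a) S = X.q a S := by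
  classical
  apply (isUlt_q (ha.smul _) S).eq_of_subset (isUlt_q ha S)
  rintro P ⟨hP, k, hk, h⟩
  refine ⟨hP, k * g, ⟨hk.1.mul hg, ?_⟩, ?_⟩
  · intro i hi hiS
    rw [Perm.mul_apply]
    rw [sp_smul ha] at hk
    apply hk.2 (g i) (Finset.mem_image_of_mem _ hi)
    intro hgi
    have := hg _ hgi
    rw [g.injective this] at hgi
    exact hiS hgi
  · rwa [map_mul, mul_smul]

theorem q_smul_smul {a : Ω} (ha : X.Cont a) {S : Finset ℕ} {g : Perm ℕ} (hg : Fx S g) :
    X.φ g • X.q a S = X.q (X.φ g • a) S := by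
  classical
  symm
  apply (isUlt_q (ha.smul _) S).eq_of_subset ((isUlt_q ha S).smul _)
  rintro P ⟨hP, k, hk, h⟩
  rw [Set.mem_smul_set_iff_inv_smul_mem, ← map_inv]
  refine ⟨hP.smul _, g⁻¹ * k * g, ⟨(hg.inv.mul hk.1).mul hg, ?_⟩, ?_⟩
  · intro i hi hiS
    rw [sp_smul hP]
    intro hmem
    obtain ⟨j, hj, hj2⟩ := Finset.mem_image.1 hmem
    rw [Perm.mul_apply, Perm.mul_apply] at hj2
    have hj3 : j = k (g i) := g⁻¹.injective hj2
    rw [sp_smul ha] at hk
    refine hk.2 (g i) (Finset.mem_image_of_mem _ hi) ?_ (hj3 ▸ hj)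
    intro hgi
    have := hg _ hgi
    rw [g.injective this] at hgi
    exact hiS hgi
  · rw [map_mul, map_mul, mul_smul, mul_smul]
    exact Set.smul_mem_smul_set h

theorem sup_q {a : Ω} (ha : X.Cont a) (S : Finset ℕ) : X.Sup S (X.q a S) := by
  intro g hg
  rw [mem_stabilizer_iff, q_smul_smul ha hg, q_smul ha hg]

theorem q_inter {a : Ω} (ha : X.Cont a) (S : Finset ℕ) : X.q a S = X.q a (S ∩ X.sp a) := by
  classical
  apply (isUlt_q ha S).eq_of_subset (isUlt_q ha _)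
  rintro P ⟨hP, hPq⟩
  obtain ⟨g, hg⟩ := exists_fresh S (X.sp a) (X.sp P)
  refine ⟨hP, g, ⟨hg.1.mono Finset.inter_subset_left, ?_⟩, (mem_q ha hP hg).1 ⟨hP, hPq⟩⟩
  intro i hi hiS
  apply hg.2 i hi
  intro hS
  exact hiS (Finset.mem_inter.2 ⟨hS, hi⟩)

theorem sp_preimage_subset {f : Ω → Ω'} (hf : Eqv (M := M) f) {P : Set Ω'} (hP : X.Cont P) :
    X.sp (f ⁻¹' P) ⊆ X.sp P := supp_anti hP (stab_le_preimage hf P)

theorem stab_le_of_eqv {f : Ω → Ω'} (hf : Eqv (M := M) f) (a : Ω) :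
    stabilizer M a ≤ stabilizer M (f a) := by
  intro m hm
  rw [mem_stabilizer_iff] at hm ⊢
  rw [← hf, hm]

theorem Cont.eqv {f : Ω → Ω'} (hf : Eqv (M := M) f) {a : Ω} (ha : X.Cont a) : X.Cont (f a) :=
  X.opn_mono ha (stab_le_of_eqv hf a)

theorem sp_eqv_subset {f : Ω → Ω'} (hf : Eqv (M := M) f) {a : Ω} (ha : X.Cont a) :
    X.sp (f a) ⊆ X.sp a := supp_anti ha (stab_le_of_eqv hf a)

theorem q_preimage {f : Ω → Ω'} (hf : Eqv (M := M) f) {a : Ω} (ha : X.Cont a) {S : Finset ℕ}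
    {P : Set Ω'} (hP : X.Cont P) : f ⁻¹' P ∈ X.q a S ↔ P ∈ X.q (f a) S := by
  obtain ⟨g, hg⟩ := exists_fresh S (X.sp a) (X.sp P)
  rw [mem_q ha (hP.preimage hf) (hg.mono subset_rfl (sp_preimage_subset hf hP)),
    mem_q (ha.eqv hf) hP (hg.mono (sp_eqv_subset hf ha) subset_rfl), Set.mem_preimage, hf]

/-- if `q a S` is fixed by `N` and `S` supports `a` then `N` fixes `a`. -/
theorem le_stab_of_mem_singleton {a : Ω} {N : Subgroup M} {U : Set (Set Ω)} (hU : X.IsUlt U)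
    (h : N ≤ stabilizer M U) (hmem : {a} ∈ U) : N ≤ stabilizer M a := by
  intro n hn
  have h1 : n • ({a} : Set Ω) ∈ U := (mem_iff_smul_mem (h hn) _).2 hmem
  obtain ⟨x, hx1, hx2⟩ := hU.nonempty (hU.inter _ hmem _ h1)
  rw [Set.smul_set_singleton] at hx2
  rw [mem_stabilizer_iff]
  rw [Set.mem_singleton_iff] at hx1 hx2
  rw [← hx2, hx1]

theorem stab_singleton (a : Ω) : stabilizer M ({a} : Set Ω) = stabilizer M a := by
  ext m
  rw [mem_stabilizer_iff, mem_stabilizer_iff, Set.smul_set_singleton,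
    Set.singleton_eq_singleton_iff]

theorem Cont.singleton {a : Ω} (ha : X.Cont a) : X.Cont ({a} : Set Ω) := by
  unfold Cont
  rw [stab_singleton]
  exact ha

theorem le_stab_of_sup {a : Ω} (ha : X.Cont a) {S : Finset ℕ} (hS : X.Sup S a) {N : Subgroup M}
    (h : N ≤ stabilizer M (X.q a S)) : N ≤ stabilizer M a := by
  apply le_stab_of_mem_singleton (isUlt_q ha S) h
  obtain ⟨g, hg⟩ := exists_fresh S (X.sp a) (X.sp ({a} : Set Ω))
  exact ⟨ha.singleton, g, hg, hS.smul_eq hg.1⟩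

/-- pairwise disjoint fresh moves. -/
theorem exists_disjoint_moves (S T : Finset ℕ) (K : ℕ) :
    ∃ g : ℕ → Perm ℕ, (∀ j, Fx S (g j)) ∧
      ∀ j < K, ∀ k < K, j ≠ k → ∀ i ∈ T, i ∉ S → ∀ i' ∈ T, i' ∉ S → g j i ≠ g k i' := by
  classical
  induction K with
  | zero => exact ⟨fun _ => 1, fun _ => Fx.one S, fun j hj => absurd hj (Nat.not_lt_zero _)⟩
  | succ K ih =>
    obtain ⟨g, hg, hd⟩ := ih
    obtain ⟨h, hh⟩ := exists_fresh S T ((Finset.range K).biUnion (fun j => T.image (g j)))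
    refine ⟨fun j => if j < K then g j else h, fun j => ?_, ?_⟩
    · dsimp only
      split_ifs
      · exact hg j
      · exact hh.1
    · intro j hj k hk hjk i hi hiS i' hi' hiS'
      have hcase : ∀ j' < K, ∀ a ∈ T, a ∉ S → ∀ b ∈ T, b ∉ S → g j' a ≠ h b := by
        intro j' hj' a ha _ b hb hbS heq
        apply hh.2 b hb hbS
        rw [← heq]
        exact Finset.mem_biUnion.2 ⟨j', Finset.mem_range.2 hj', Finset.mem_image_of_mem _ ha⟩
      dsimp only
      by_cases h1 : j < K <;> by_cases h2 : k < K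
      · simp only [h1, h2, if_true]
        exact hd j h1 k h2 hjk i hi hiS i' hi' hiS'
      · simp only [h1, h2, if_true, if_false]
        exact hcase j h1 i hi hiS i' hi' hiS'
      · simp only [h1, h2, if_true, if_false]
        exact (hcase k h2 i' hi' hiS' i hi hiS).symm
      · exfalso; omega

theorem IsUlt.finite_inter {U : Set (Set Ω)} (h : X.IsUlt U) {ι : Type*} (s : Finset ι)
    (P : ι → Set Ω) (hP : ∀ i ∈ s, P i ∈ U) : (⋂ i ∈ s, P i) ∈ U := by
  classical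
  induction s using Finset.induction_on with
  | empty => simpa using h.univ
  | insert i s hi ih =>
    rw [Finset.set_biInter_insert]
    exact h.inter _ (hP i (Finset.mem_insert_self _ _)) _
      (ih (fun j hj => hP j (Finset.mem_insert_of_mem hj)))

/-- Lemma R. -/
theorem exists_rep {N : Subgroup M} (_hN : X.opn N) {S : Finset ℕ} (hS : X.Has S N) {a : Ω}
    (ha : X.Cont a) {U : Set (Set Ω)} (hU : X.IsUlt U) (hinv : X.Sup S U) (hmem : orb N a ∈ U)
    (W : Finset ℕ) :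
    ∃ a' ∈ orb N a, U = X.q a' S ∧ ∀ i ∈ X.sp a', i ∉ S → i ∉ W := by
  classical
  have hcont : ∀ b ∈ orb N a, X.Cont b := by
    rintro _ ⟨n, _, rfl⟩
    exact ha.smul n
  suffices h : ∃ a' ∈ orb N a, U = X.q a' S by
    obtain ⟨a', ha', he⟩ := h
    obtain ⟨g, hg⟩ := exists_fresh S (X.sp a') W
    refine ⟨X.φ g • a', orb_trans ha' (smul_mem_orb (hS g hg.1) _), ?_, ?_⟩
    · rw [he, q_smul (hcont _ ha') hg.1]
    · intro i hi hiS
      rw [sp_smul (hcont _ ha')] at hi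
      obtain ⟨j, hj, hjS, rfl⟩ := (sdiff_image_fix hg.1).1 ⟨hi, hiS⟩
      exact hg.2 j hj hjS
  by_contra hcon
  push Not at hcon
  obtain ⟨F, hF, hFsub, hFrep⟩ := exists_reps hS ha
  obtain ⟨K, hK⟩ := exists_bound ha
  -- choose separating sets
  have hsep : ∀ f ∈ F, ∃ P ∈ U, P ∉ X.q f S := by
    intro f hf
    by_contra hcon2
    push Not at hcon2
    exact hcon f (hFsub hf) (hU.eq_of_subset (isUlt_q (hcont f (hFsub hf)) S) hcon2)
  choose! P hPU hPq using hsep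
  let Q : Set Ω := orb N a ∩ ⋂ f ∈ hF.toFinset, P f
  have hQU : Q ∈ U := hU.inter _ hmem _ (hU.finite_inter _ _ (fun f hf => hPU f (hF.mem_toFinset.1 hf)))
  have hQc : X.Cont Q := hU.cont _ hQU
  -- every element of `Q` has support meeting that of `Q` outside `S`
  have hmeet : ∀ b ∈ Q, ∃ i ∈ X.sp b, i ∉ S ∧ i ∈ X.sp Q := by
    intro b hb
    by_contra hcon2
    push Not at hcon2
    obtain ⟨f, hf, g, hg, rfl⟩ := hFrep b hb.1
    have hQq : Q ∈ X.q (X.φ g • f) S :=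
      (mem_q_self ((hcont f (hFsub hf)).smul _) hQc hcon2).2 hb
    rw [q_smul (hcont f (hFsub hf)) hg] at hQq
    apply hPq f hf
    apply (isUlt_q (hcont f (hFsub hf)) S).mono _ hQq _ (hU.cont _ (hPU f hf))
    intro x hx
    exact Set.mem_iInter₂.1 hx.2 f (hF.mem_toFinset.2 hf)
  obtain ⟨g, hg, hd⟩ := exists_disjoint_moves S (X.sp Q) (K + 1)
  have hall : (⋂ j ∈ Finset.range (K + 1), X.φ (g j) • Q) ∈ U := by
    apply hU.finite_inter
    intro j _
    exact (mem_iff_smul_mem (hinv (g j) (hg j)) Q).2 hQU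
  obtain ⟨b, hb⟩ := hU.nonempty hall
  rw [Set.mem_iInter₂] at hb
  have hex : ∀ j ∈ Finset.range (K + 1), ∃ i ∈ X.sp b, ∃ t ∈ X.sp Q, t ∉ S ∧ g j t = i := by
    intro j hj
    have h1 := hb j hj
    rw [Set.mem_smul_set_iff_inv_smul_mem, ← map_inv] at h1
    have hbc : X.Cont b := by
      have := hcont _ h1.1
      rwa [cont_smul_iff] at this
    obtain ⟨i, hi, hiS, hiQ⟩ := hmeet _ h1
    rw [sp_smul hbc] at hi
    obtain ⟨t, ht, hti⟩ := Finset.mem_image.1 hi
    refine ⟨t, ht, i, hiQ, hiS, ?_⟩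
    rw [← hti, ap_inv]
  choose! ι h1 t h2 h3 h4 using hex
  have hb0 : b ∈ orb N a := by
    have h0 := hb 0 (Finset.mem_range.2 (Nat.succ_pos K))
    have := (smul_mem_orb (hS _ (hg 0)) ((X.φ (g 0))⁻¹ • b))
    rw [smul_inv_smul] at this
    rw [Set.mem_smul_set_iff_inv_smul_mem] at h0
    exact orb_trans h0.1 this
  have hcard : (X.sp b).card ≤ K := by
    obtain ⟨n, _, rfl⟩ := hb0
    exact hK n
  have hinj : Set.InjOn ι (Finset.range (K + 1)) := by
    intro j hj k hk hjk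
    by_contra hne
    have hj' := Finset.mem_coe.1 hj
    have hk' := Finset.mem_coe.1 hk
    refine hd j (Finset.mem_range.1 hj') k (Finset.mem_range.1 hk') hne (t j) (h2 j hj')
      (h3 j hj') (t k) (h2 k hk') (h3 k hk') ?_
    rw [h4 j hj', h4 k hk']
    exact hjk
  have := Finset.card_le_card_of_injOn ι (fun j hj => h1 j hj) hinj
  rw [Finset.card_range] at this
  omega

end Ctx

end Reducts
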